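import Pool.Agent.H30.MQ.Ch
import Pool.Agent.H76.MQ.Df

/-!
Project MP_78d38b_MQT: existence of the configuration (the auxiliary places are given by the
Frobenius density theorem).
-/

set_option autoImplicit false
set_option linter.unusedSectionVars false
open scoped Classical

open NumberField IsDedekindDomain Filter Topology Pool.Agent.H42.PC H38RT
open H38T1 (SC sc rep eo la OddP)

namespace H30MQ

section Kummer

variable {K : Type} [Field K] [NumberField K]

theorem sc_prod {ι : Type} (E : Finset ι) (x : ι → K) (hx : ∀ i ∈ E, x i ≠ 0) :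
    sc (∏ i ∈ E, x i) = ∑ i ∈ E, sc (x i) := by
  induction E using Finset.induction_on with
  | empty =>
    rw [Finset.prod_empty, Finset.sum_empty, H38T1.sc_eq_zero one_ne_zero]
    exact ⟨1, (mul_one 1).symm⟩
  | insert a E ha ih =>
    have h1 : ∀ i ∈ E, x i ≠ 0 := fun i hi => hx i (Finset.mem_insert_of_mem hi)
    rw [Finset.prod_insert ha, Finset.sum_insert ha,
      H38T1.sc_mul (hx a (Finset.mem_insert_self a E)) (Finset.prod_ne_zero_iff.2 h1), ih h1]

variable {L : Type} [Field L] [NumberField L] [Algebra K L] [IsGalois K L]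

theorem sign_prod {ι : Type} (σ : L ≃ₐ[K] L) (E : Finset ι) (s : ι → L) (b : ι → ZMod 2)
    (h : ∀ i ∈ E, σ (s i) = if b i = 0 then s i else - s i) :
    σ (∏ i ∈ E, s i) = if ∑ i ∈ E, b i = 0 then ∏ i ∈ E, s i else - ∏ i ∈ E, s i := by
  have h2 : ∀ a : ZMod 2, a = 0 ∨ a = 1 := by decide
  induction E using Finset.induction_on with
  | empty => rw [Finset.prod_empty, Finset.sum_empty, if_pos rfl, map_one]
  | insert a E ha ih =>
    rw [Finset.prod_insert ha, Finset.sum_insert ha, map_mul, h a (Finset.mem_insert_self a E),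
      ih (fun i hi => h i (Finset.mem_insert_of_mem hi))]
    have h11 : (1 : ZMod 2) + 1 = 0 := by decide
    rcases h2 (b a) with h3 | h3 <;> rcases h2 (∑ i ∈ E, b i) with h4 | h4
    · simp [h3, h4]
    · simp [h3, h4]
    · simp [h3, h4]
    · simp [h3, h4, h11]

/-- Kummer duality. -/
theorem exists_sigma (D : Finset (𝓞 K)) (hD : ∀ d ∈ D, d ≠ 0) (s : 𝓞 K → L)
    (hs : ∀ d ∈ D, s d ^ 2 = algebraMap K L (d : K)) (φ : SC K →+ ZMod 2) :
    ∃ σ : L ≃ₐ[K] L, ∀ d ∈ D, σ (s d) = if φ (sc (d : K)) = 0 then s d else - s d := by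
  have h2 : ∀ a : ZMod 2, a = 0 ∨ a = 1 := by decide
  have h11 : (1 : ZMod 2) + 1 = 0 := by decide
  have hDK : ∀ d ∈ D, (d : K) ≠ 0 := by
    intro d hd h
    exact hD d hd (RingOfIntegers.coe_injective (h.trans (map_zero _).symm))
  have hsg : ∀ (σ : L ≃ₐ[K] L) (d : 𝓞 K), d ∈ D → σ (s d) = s d ∨ σ (s d) = - s d := by
    intro σ d hd
    apply sq_eq_sq_iff_eq_or_eq_neg.1
    rw [← map_pow, hs d hd, AlgEquiv.commutes]
  have hs0 : ∀ d ∈ D, s d ≠ 0 := by
    intro d hd h
    have h1 := hs d hd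
    rw [h, zero_pow two_ne_zero] at h1
    exact hDK d hd ((map_eq_zero (algebraMap K L)).1 h1.symm)
  let W : Submodule (ZMod 2) (D → ZMod 2) :=
    { carrier := {f | ∃ σ : L ≃ₐ[K] L, ∀ d : D, σ (s d) = if f d = 0 then s d else - s d}
      zero_mem' := ⟨1, fun d => by rw [Pi.zero_apply, if_pos rfl]; rfl⟩
      add_mem' := by
        rintro f g ⟨σ, hσ⟩ ⟨τ, hτ⟩
        refine ⟨σ * τ, fun d => ?_⟩
        have h3 : (σ * τ) (s d) = σ (τ (s d)) := rfl
        rw [h3, hτ d, Pi.add_apply]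
        rcases h2 (f d) with h4 | h4 <;> rcases h2 (g d) with h5 | h5
        · rw [h4, h5, if_pos rfl, hσ d, h4, if_pos rfl, if_pos (add_zero _)]
        · rw [h4, h5, if_neg one_ne_zero, map_neg, hσ d, h4, if_pos rfl, zero_add,
            if_neg one_ne_zero]
        · rw [h4, h5, if_pos rfl, hσ d, h4, if_neg one_ne_zero, add_zero, if_neg one_ne_zero]
        · rw [h4, h5, if_neg one_ne_zero, map_neg, hσ d, h4, if_neg one_ne_zero, neg_neg,
            if_pos h11]
      smul_mem' := by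
        rintro c f ⟨σ, hσ⟩
        rcases h2 c with h4 | h4
        · refine ⟨1, fun d => ?_⟩
          rw [h4, zero_smul, Pi.zero_apply, if_pos rfl]
          rfl
        · refine ⟨σ, fun d => ?_⟩
          rw [h4, one_smul]
          exact hσ d }
  obtain ⟨t, ht⟩ : ∃ t : D → ZMod 2, t = fun d : D => φ (sc ((d : 𝓞 K) : K)) := ⟨_, rfl⟩
  suffices h : t ∈ W by
    obtain ⟨σ, hσ⟩ := h
    refine ⟨σ, fun d hd => ?_⟩
    have h3 := hσ ⟨d, hd⟩
    rw [ht] at h3
    exact h3
  by_contra hcon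
  obtain ⟨f, hf, hfW⟩ := Submodule.exists_dual_map_eq_bot_of_notMem hcon inferInstance
  have hf0 : ∀ x ∈ W, f x = 0 := by
    intro x hx
    have h3 : f x ∈ W.map f := Submodule.mem_map_of_mem hx
    rw [hfW] at h3
    exact (Submodule.mem_bot _).1 h3
  obtain ⟨c, hc⟩ : ∃ c : D → ZMod 2, c = fun i => f (fun j => if i = j then 1 else 0) := ⟨_, rfl⟩
  have hfx : ∀ x : D → ZMod 2, f x = ∑ i ∈ Finset.univ.filter (fun i => c i = 1), x i := by
    intro x
    rw [LinearMap.pi_apply_eq_sum_univ f x, Finset.sum_filter]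
    refine Finset.sum_congr rfl fun i _ => ?_
    have h3 : f (fun j => if i = j then 1 else 0) = c i := by rw [hc]
    rw [h3, smul_eq_mul]
    rcases h2 (c i) with h4 | h4
    · rw [h4, mul_zero, if_neg zero_ne_one]
    · rw [h4, mul_one, if_pos rfl]
  obtain ⟨E, hE⟩ : ∃ E : Finset D, E = Finset.univ.filter (fun i => c i = 1) := ⟨_, rfl⟩
  rw [← hE] at hfx
  obtain ⟨S, hS⟩ : ∃ S : L, S = ∏ d ∈ E, s d := ⟨_, rfl⟩
  obtain ⟨e, he⟩ : ∃ e : K, e = ∏ d ∈ E, ((d : 𝓞 K) : K) := ⟨_, rfl⟩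
  have he0 : e ≠ 0 := by
    rw [he]
    exact Finset.prod_ne_zero_iff.2 fun d _ => hDK d d.2
  have hSe : S ^ 2 = algebraMap K L e := by
    rw [hS, he, map_prod, ← Finset.prod_pow]
    exact Finset.prod_congr rfl fun d _ => hs d d.2
  have hfix : ∀ σ : L ≃ₐ[K] L, σ S = S := by
    intro σ
    obtain ⟨b, hb⟩ : ∃ b : D → ZMod 2, b = fun d : D => if σ (s d) = s d then 0 else 1 := ⟨_, rfl⟩
    have hb1 : ∀ d : D, σ (s d) = if b d = 0 then s d else - s d := by
      intro d
      by_cases h3 : σ (s d) = s d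
      · have h4 : b d = 0 := by
          rw [hb]
          exact if_pos h3
        rw [h4, if_pos rfl, h3]
      · have h4 : b d = 1 := by
          rw [hb]
          exact if_neg h3
        rw [h4, if_neg one_ne_zero]
        exact (hsg σ d d.2).resolve_left h3
    have hbW : b ∈ W := ⟨σ, hb1⟩
    have h5 := hf0 b hbW
    rw [hfx] at h5
    rw [hS, sign_prod σ E (fun d : D => s d) b (fun d _ => hb1 d), h5, if_pos rfl]
  obtain ⟨y, hy⟩ := (IsGalois.mem_range_algebraMap_iff_fixed S).2 hfix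
  have hey : e = y ^ 2 := by
    apply (algebraMap K L).injective
    rw [← hSe, map_pow, hy]
  have h6 : sc e = 0 := by
    rw [H38T1.sc_eq_zero he0, hey]
    exact ⟨y, sq y⟩
  apply hf
  rw [hfx t, ht]
  have h7 : sc e = ∑ d ∈ E, sc ((d : 𝓞 K) : K) := by
    rw [he]
    exact sc_prod E (fun d : D => ((d : 𝓞 K) : K)) fun d _ => hDK d d.2
  rw [← map_sum, ← h7, h6, map_zero]

/-- A Galois extension with square roots of the given elements. -/
theorem exists_fieldL (D : Finset (𝓞 K)) : ∃ (L : Type) (_ : Field L) (_ : NumberField L)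
    (_ : Algebra K L) (_ : IsGalois K L) (s : 𝓞 K → L),
    ∀ d ∈ D, s d ^ 2 = algebraMap K L (d : K) := by
  have h1 : ∀ d : 𝓞 K, ∃ s : AlgebraicClosure K, s ^ 2 = algebraMap K (AlgebraicClosure K) (d : K) :=
    fun d => IsAlgClosed.exists_pow_nat_eq _ two_pos
  choose s hs using h1
  let E : IntermediateField K (AlgebraicClosure K) :=
    IntermediateField.adjoin K (D.image s : Set (AlgebraicClosure K))
  have hE : FiniteDimensional K E := by
    refine IntermediateField.finiteDimensional_adjoin fun x _ => ?_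
    exact (Algebra.IsAlgebraic.isAlgebraic (R := K) x).isIntegral
  let N : IntermediateField K (AlgebraicClosure K) :=
    IntermediateField.normalClosure K E (AlgebraicClosure K)
  have hN : FiniteDimensional K N := inferInstance
  have hNn : Normal K N := inferInstance
  have hfinQ : FiniteDimensional ℚ N := Module.Finite.trans K _
  have hN' : NumberField N :=
    { to_charZero := inferInstance, to_finiteDimensional := hfinQ }
  have hG : IsGalois K N := { }
  have hmem : ∀ d ∈ D, s d ∈ N := by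
    intro d hd
    apply IntermediateField.le_normalClosure E
    apply IntermediateField.subset_adjoin
    exact Finset.mem_coe.2 (Finset.mem_image_of_mem s hd)
  refine ⟨N, inferInstance, hN', inferInstance, hG,
    fun d => if h : d ∈ D then ⟨s d, hmem d h⟩ else 0, ?_⟩
  intro d hd
  simp only [dif_pos hd]
  apply Subtype.ext
  exact hs d

/-- Elements with the same cyclic group act in the same way on square roots. -/
theorem same_sign {g σ : L ≃ₐ[K] L} (h : Subgroup.zpowers g = Subgroup.zpowers σ) {s : L} {e : ZMod 2}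
    (hσ : σ s = if e = 0 then s else - s) : g s = if e = 0 then s else - s := by
  by_cases hss : s = - s
  · have h0 : s = 0 := self_eq_neg.1 hss
    rw [h0, map_zero, neg_zero, ite_self]
  have hz : ∀ (τ : L ≃ₐ[K] L), τ s = s → ∀ ρ ∈ Subgroup.zpowers τ, ρ s = s := by
    intro τ hτ ρ hρ
    have h1 : Subgroup.zpowers τ ≤ MulAction.stabilizer (L ≃ₐ[K] L) s := by
      rw [Subgroup.zpowers_le, MulAction.mem_stabilizer_iff]
      exact hτ
    exact MulAction.mem_stabilizer_iff.1 (h1 hρ)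
  have h1 : g ∈ Subgroup.zpowers σ := by
    rw [← h]
    exact Subgroup.mem_zpowers _
  have h2 : σ ∈ Subgroup.zpowers g := by
    rw [h]
    exact Subgroup.mem_zpowers _
  by_cases he : e = 0
  · rw [if_pos he] at hσ ⊢
    exact hz σ hσ g h1
  · rw [if_neg he] at hσ ⊢
    have h3 : ∀ ρ ∈ Subgroup.zpowers σ, ρ s = s ∨ ρ s = - s := by
      intro ρ hρ
      obtain ⟨n, rfl⟩ := Subgroup.mem_zpowers_iff.1 hρ
      induction n using Int.induction_on with
      | zero => exact Or.inl (by rw [zpow_zero]; rfl)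
      | succ n ih =>
        have h4 : (σ ^ ((n : ℤ) + 1)) s = (σ ^ (n : ℤ)) (σ s) := by
          rw [zpow_add_one]
          rfl
        rw [h4, hσ, map_neg]
        rcases ih (Subgroup.zpow_mem_zpowers _ _) with h5 | h5
        · right
          rw [h5]
        · left
          rw [h5, neg_neg]
      | pred n ih =>
        have h4 : (σ ^ (-(n : ℤ) - 1)) (σ s) = (σ ^ (-(n : ℤ))) s := by
          have h6 : σ ^ (-(n : ℤ)) = σ ^ (-(n : ℤ) - 1) * σ := by
            rw [← zpow_add_one]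
            ring_nf
          rw [h6]
          rfl
        rw [hσ, map_neg] at h4
        rcases ih (Subgroup.zpow_mem_zpowers _ _) with h5 | h5
        · right
          rw [h5] at h4
          exact neg_eq_iff_eq_neg.1 h4
        · left
          rw [h5] at h4
          exact neg_injective h4
    rcases h3 g h1 with h4 | h4
    · exfalso
      have h5 := hz g h4 σ h2
      rw [hσ] at h5
      exact hss h5.symm
    · exact h4

omit [NumberField L] [IsGalois K L] in
theorem fin_mem {x : 𝓞 K} (hx : x ≠ 0) : {v : HeightOneSpectrum (𝓞 K) | x ∈ v.asIdeal}.Finite := by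
  have h1 := Ideal.finite_factors (R := 𝓞 K) (I := Ideal.span {x})
    (by rw [Ne, Ideal.zero_eq_bot, Ideal.span_singleton_eq_bot]; exact hx)
  refine h1.subset fun v hv => ?_
  exact Ideal.dvd_span_singleton.2 hv

/-- Infinitely many places with prescribed Legendre symbols. -/
theorem exists_places (D : Finset (𝓞 K)) (hD : ∀ d ∈ D, d ≠ 0) (φ : SC K →+ ZMod 2) :
    {v : HeightOneSpectrum (𝓞 K) | (2 : 𝓞 K) ∉ v.asIdeal ∧
      ∀ d ∈ D, d ∉ v.asIdeal ∧ la v (sc (d : K)) = φ (sc (d : K))}.Infinite := by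
  obtain ⟨L, _, _, _, _, s, hs⟩ := exists_fieldL D
  obtain ⟨σ, hσ⟩ := exists_sigma D hD s hs φ
  have hbad : ({v : HeightOneSpectrum (𝓞 K) | (2 : 𝓞 K) ∈ v.asIdeal} ∪
      ⋃ d ∈ D, {v : HeightOneSpectrum (𝓞 K) | d ∈ v.asIdeal}).Finite :=
    (fin_mem two_ne_zero).union (Set.Finite.biUnion D.finite_toSet fun d hd => fin_mem (hD d hd))
  refine ((frob_infK σ).sdiff hbad).mono ?_
  rintro v ⟨⟨g, hg, hF⟩, hv⟩
  have h2 : (2 : 𝓞 K) ∉ v.asIdeal := fun h => hv (Or.inl h)
  refine ⟨h2, fun d hd => ?_⟩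
  have hdv : d ∉ v.asIdeal := fun h => hv (Or.inr (Set.mem_biUnion hd h))
  exact ⟨hdv, la_of_frob hF h2 hdv (hs d hd) (same_sign hg (hσ d hd))⟩

end Kummer

section Choice

theorem exists_injOn {α β : Type} (P : Finset α) (A : α → Set β) (hA : ∀ v ∈ P, (A v).Infinite)
    (b₀ : β) : ∃ a : α → β, (∀ v ∈ P, a v ∈ A v) ∧ ∀ v ∈ P, ∀ v' ∈ P, a v = a v' → v = v' := by
  induction P using Finset.induction_on with
  | empty =>
    exact ⟨fun _ => b₀, fun v hv => absurd hv (Finset.notMem_empty v),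
      fun v hv => absurd hv (Finset.notMem_empty v)⟩
  | insert u P hu ih =>
    obtain ⟨a, ha1, ha2⟩ := ih fun v hv => hA v (Finset.mem_insert_of_mem hv)
    obtain ⟨x, hx, hxa⟩ := (hA u (Finset.mem_insert_self u P)).exists_notMem_finset (P.image a)
    have hne : ∀ v ∈ P, v ≠ u := fun v hv h => hu (h ▸ hv)
    refine ⟨fun v => if v = u then x else a v, ?_, ?_⟩
    · intro v hv
      rcases Finset.mem_insert.1 hv with h | h
      · simp only [h, if_true]
        exact hx
      · simp only [if_neg (hne v h)]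
        exact ha1 v h
    · intro v hv v' hv' hvv
      rcases Finset.mem_insert.1 hv with h | h <;> rcases Finset.mem_insert.1 hv' with h' | h'
      · rw [h, h']
      · exfalso
        simp only [h, if_true, if_neg (hne v' h')] at hvv
        exact hxa (Finset.mem_image.2 ⟨v', h', hvv.symm⟩)
      · exfalso
        simp only [h', if_true, if_neg (hne v h)] at hvv
        exact hxa (Finset.mem_image.2 ⟨v, h, hvv⟩)
      · simp only [if_neg (hne v h), if_neg (hne v' h')] at hvv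
        exact ha2 v h v' h' hvv

end Choice

section Config

variable {K : Type} [Field K] [NumberField K]

theorem oddP_of {v : HeightOneSpectrum (𝓞 K)} (h : (2 : 𝓞 K) ∉ v.asIdeal) : OddP v := by
  have h3 : v.valuation K ((2 : 𝓞 K) : K) = 1 := v.valuation_eq_one_iff_notMem.mpr h
  have h4 : ((2 : 𝓞 K) : K) = 2 := map_ofNat _ 2
  rw [h4] at h3
  exact h3

theorem coe_ne {d : 𝓞 K} (hd : d ≠ 0) : (d : K) ≠ 0 := fun h =>
  hd (RingOfIntegers.coe_injective (h.trans (map_zero _).symm))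

theorem eo_unit {v : HeightOneSpectrum (𝓞 K)} {d : 𝓞 K} (hd0 : d ≠ 0) (hd : d ∉ v.asIdeal) :
    eo v (sc (d : K)) = 0 := by
  have h3 : v.valuation K (d : K) = 1 := v.valuation_eq_one_iff_notMem.mpr hd
  have h4 : ord (v.valuation K) (d : K) = 0 := by
    unfold ord
    rw [h3, WithZero.log_one, neg_zero]
  rw [H38T1.eo_sc (coe_ne hd0), h4, Int.cast_zero]

theorem six_two {v : HeightOneSpectrum (𝓞 K)} (h : (6 : 𝓞 K) ∉ v.asIdeal) : (2 : 𝓞 K) ∉ v.asIdeal := by
  intro h2
  apply h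
  have h3 : (6 : 𝓞 K) = 2 * 3 := by norm_num
  rw [h3]
  exact v.asIdeal.mul_mem_right _ h2

theorem twOk_one {C : H76MQ.Cfg K} (hC : C.Ok) : H76MQ.TwOk C 1 := by
  have h1 : sc ((1 : 𝓞 K) : K) = 0 := by
    have h2 : ((1 : 𝓞 K) : K) = 1 := map_one _
    rw [h2, H38T1.sc_eq_zero one_ne_zero]
    exact ⟨1, (mul_one 1).symm⟩
  refine ⟨one_ne_zero, fun v hv => ?_, fun v _ _ => ?_⟩
  · rw [h1, H38T1.la_zero (oddP_of (six_two (hC.a6 v hv))), H38T1.eo_zero]
  · rw [h1, H38T1.eo_zero]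

theorem twOk_mul {C : H76MQ.Cfg K} (hC : C.Ok) {d d' : 𝓞 K} (h : H76MQ.TwOk C d)
    (h' : H76MQ.TwOk C d') : H76MQ.TwOk C (d * d') := by
  have h1 : sc ((d * d' : 𝓞 K) : K) = sc (d : K) + sc (d' : K) := by
    have h2 : ((d * d' : 𝓞 K) : K) = (d : K) * (d' : K) := map_mul _ _ _
    rw [h2, H38T1.sc_mul (coe_ne h.ne) (coe_ne h'.ne)]
  refine ⟨mul_ne_zero h.ne h'.ne, fun v hv => ?_, fun v hv hv' => ?_⟩
  · rw [h1, H38T1.la_add (oddP_of (six_two (hC.a6 v hv))), H38T1.eo_add, h.leg v hv, h'.leg v hv]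
  · rw [h1, H38T1.eo_add, h.out v hv hv', h'.out v hv hv', add_zero]

/-- **Existence of the configuration.** -/
theorem exists_cfg
    (h2 : ∀ v : HeightOneSpectrum (𝓞 K), (2 : 𝓞 K) ∈ v.asIdeal →
      H76PP.Nv v = 2 ∧ (2 : 𝓞 K) ∉ v.asIdeal ^ 2)
    (D : Finset (𝓞 K)) (hD : ∀ d ∈ D, d ≠ 0) :
    ∃ C : H76MQ.Cfg K, C.Ok ∧ ∀ d ∈ Submonoid.closure (D : Set (𝓞 K)), H76MQ.TwOk C d := by
  have hPf : {v : HeightOneSpectrum (𝓞 K) | (2 : 𝓞 K) ∈ v.asIdeal}.Finite := fin_mem two_ne_zero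
  have h3f : {v : HeightOneSpectrum (𝓞 K) | (3 : 𝓞 K) ∈ v.asIdeal}.Finite := fin_mem (by
    intro h
    have h1 : algebraMap (𝓞 K) K 3 = 0 := by rw [h, map_zero]
    rw [map_ofNat] at h1
    exact three_ne_zero h1)
  have hDf : (⋃ d ∈ D, {v : HeightOneSpectrum (𝓞 K) | d ∈ v.asIdeal}).Finite :=
    Set.Finite.biUnion D.finite_toSet fun d hd => fin_mem (hD d hd)
  have hRf : {v : HeightOneSpectrum (𝓞 K) | (2 : 𝓞 K) ∉ v.asIdeal ∧ ((3 : 𝓞 K) ∈ v.asIdeal ∨
      ∃ d ∈ D, d ∈ v.asIdeal)}.Finite := by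
    refine (h3f.union hDf).subset ?_
    rintro v ⟨-, h | ⟨d, hd, hdv⟩⟩
    · exact Or.inl h
    · exact Or.inr (Set.mem_biUnion hd hdv)
  have hrange : ∀ v : HeightOneSpectrum (𝓞 K), ({u : HeightOneSpectrum (𝓞 K) |
      (6 : 𝓞 K) ∉ u.asIdeal ∧ u ∉ hRf.toFinset ∧
      ∀ d ∈ D, la u (sc (d : K)) = eo v (sc (d : K))}).Infinite := by
    intro v
    let φ : SC K →+ ZMod 2 :=
      { toFun := fun c => eo v c
        map_zero' := H38T1.eo_zero v
        map_add' := H38T1.eo_add v }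
    refine ((exists_places D hD φ).sdiff h3f).mono ?_
    rintro u ⟨⟨hu2, hu⟩, hu3⟩
    have hmax : u.asIdeal.IsPrime := u.isPrime
    refine ⟨?_, ?_, fun d hd => (hu d hd).2⟩
    · intro h6
      have h7 : (6 : 𝓞 K) = 2 * 3 := by norm_num
      rw [h7] at h6
      rcases hmax.mem_or_mem h6 with h | h
      · exact hu2 h
      · exact hu3 h
    · intro h
      rw [Set.Finite.mem_toFinset] at h
      rcases h.2 with h | ⟨d, hd, hdv⟩
      · exact hu3 h
      · exact (hu d hd).1 hdv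
  obtain ⟨u₀, -⟩ := (exists_places (K := K) ∅ (fun d hd => absurd hd (Finset.notMem_empty d)) 0).nonempty
  obtain ⟨a, ha1, ha2⟩ := exists_injOn hPf.toFinset _ (fun v _ => hrange v) u₀
  obtain ⟨C, hC⟩ : ∃ C : H76MQ.Cfg K, C = ⟨hPf.toFinset, a, hRf.toFinset⟩ := ⟨_, rfl⟩
  have hOk : C.Ok := by
    rw [hC]
    refine ⟨fun v => Set.Finite.mem_toFinset _, fun v hv => ?_, fun v hv => ?_,
      fun v hv => (ha1 v hv).1, ha2, fun v hv => (ha1 v hv).2.1, fun v hv => ?_, fun v hv => ?_⟩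
    · have h4 : v ∈ hPf.toFinset := hv
      exact (h2 v (hPf.mem_toFinset.1 h4)).1
    · have h4 : v ∈ hPf.toFinset := hv
      exact (h2 v (hPf.mem_toFinset.1 h4)).2
    · exact ((Set.Finite.mem_toFinset _).1 hv).1
    · refine (Set.Finite.mem_toFinset _).2 ⟨fun h => ?_, Or.inl hv⟩
      apply v.isPrime.ne_top
      rw [Ideal.eq_top_iff_one]
      have h4 := v.asIdeal.sub_mem hv h
      have h5 : (3 : 𝓞 K) - 2 = 1 := by norm_num
      rwa [h5] at h4
  refine ⟨C, hOk, fun d hd => ?_⟩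
  induction hd using Submonoid.closure_induction with
  | mem d hd =>
    refine ⟨hD d hd, fun v hv => ?_, fun v hv hv' => ?_⟩
    · rw [hC] at hv ⊢
      exact (ha1 v hv).2.2 d hd
    · apply eo_unit (hD d hd)
      intro hdv
      rw [hC] at hv hv'
      apply hv'
      refine (Set.Finite.mem_toFinset _).2 ⟨fun h => hv ((Set.Finite.mem_toFinset _).2 h),
        Or.inr ⟨d, hd, hdv⟩⟩
  | one => exact twOk_one hOk
  | mul x y _ _ hx hy => exact twOk_mul hOk hx hy

end Config

end H30MQ
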