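import Pool.Agent.H14.T1.Mu

/-!
Project MP_78d38b_MQT, section 7 (no row): from all twists of `y^2 = x^3 + A x + B` by the elements of a
set `D` of elements of `K`, closed under multiplication modulo squares, over a number field `N` to the
number fields between `K` and the field generated over `N` by the square roots of the elements of `D`.
-/

set_option autoImplicit false
set_option linter.style.haveILetI false
set_option linter.unusedSectionVars false
open scoped Classical

open NumberField IsDedekindDomain WeierstrassCurve Pool.Agent.H10 Pool.Agent.H11 Pool.Agent.H93.MQ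

namespace H30MQ

/-- The twist of `y^2 = x^3 + A x + B` by `d`, over the extension `M` of `K`. -/
def tw (K M : Type*) [Field K] [Field M] [Algebra K M] (A B d : K) : WeierstrassCurve M :=
  ⟨0, 0, 0, algebraMap K M (d ^ 2 * A), algebraMap K M (d ^ 3 * B)⟩

lemma tw_map (K : Type*) {M M' : Type*} [Field K] [Field M] [Algebra K M] [Field M'] [Algebra K M']
    [Algebra M M'] [IsScalarTower K M M'] (A B d : K) :
    (tw K M A B d).map (algebraMap M M') = tw K M' A B d := by
  ext <;> simp [tw, IsScalarTower.algebraMap_apply K M M']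

/-- Sets closed under multiplication modulo squares. -/
structure Mul2K {K : Type*} [Field K] (D : Set K) : Prop where
  one : 1 ∈ D
  ne : ∀ d ∈ D, d ≠ 0
  mul : ∀ d ∈ D, ∀ d' ∈ D, ∃ d'' ∈ D, ∃ s : K, s ≠ 0 ∧ d * d' = d'' * s ^ 2

/-- The products of the elements of a finite set. -/
def prods {K : Type*} [Field K] (ds : Finset K) : Set K := {d | ∃ J ⊆ ds, d = ∏ x ∈ J, x}

theorem mul2K_prods {K : Type*} [Field K] {ds : Finset K} (h : ∀ d ∈ ds, d ≠ 0) :
    Mul2K (prods ds) := by
  refine ⟨⟨∅, Finset.empty_subset _, by simp⟩, ?_, ?_⟩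
  · rintro d ⟨J, hJ, rfl⟩
    exact Finset.prod_ne_zero_iff.2 fun x hx => h x (hJ hx)
  · rintro d ⟨J, hJ, rfl⟩ d' ⟨J', hJ', rfl⟩
    refine ⟨∏ x ∈ symmDiff J J', x, ⟨symmDiff J J', ?_, rfl⟩, ∏ x ∈ J ∩ J', x, ?_, ?_⟩
    · intro x hx
      rcases Finset.mem_symmDiff.1 hx with hx | hx
      · exact hJ hx.1
      · exact hJ' hx.1
    · exact Finset.prod_ne_zero_iff.2 fun x hx => h x (hJ (Finset.mem_inter.1 hx).1)
    · have h1 : J = (J \ J') ∪ (J ∩ J') := by
        ext x
        simp only [Finset.mem_union, Finset.mem_sdiff, Finset.mem_inter]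
        tauto
      have h2 : J' = (J' \ J) ∪ (J ∩ J') := by
        ext x
        simp only [Finset.mem_union, Finset.mem_sdiff, Finset.mem_inter]
        tauto
      have h3 : symmDiff J J' = (J \ J') ∪ (J' \ J) := rfl
      have d1 : Disjoint (J \ J') (J ∩ J') := by
        rw [Finset.disjoint_left]
        intro x hx hx'
        exact (Finset.mem_sdiff.1 hx).2 (Finset.mem_inter.1 hx').2
      have d2 : Disjoint (J' \ J) (J ∩ J') := by
        rw [Finset.disjoint_left]
        intro x hx hx'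
        exact (Finset.mem_sdiff.1 hx).2 (Finset.mem_inter.1 hx').1
      have d3 : Disjoint (J \ J') (J' \ J) := by
        rw [Finset.disjoint_left]
        intro x hx hx'
        exact (Finset.mem_sdiff.1 hx).2 (Finset.mem_sdiff.1 hx').1
      have e1 : ∏ x ∈ J, x = (∏ x ∈ J \ J', x) * ∏ x ∈ J ∩ J', x := by
        rw [← Finset.prod_union d1, ← h1]
      have e2 : ∏ x ∈ J', x = (∏ x ∈ J' \ J, x) * ∏ x ∈ J ∩ J', x := by
        rw [← Finset.prod_union d2, ← h2]
      rw [e1, e2, h3, Finset.prod_union d3]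
      ring

section Disc

variable {K M : Type*} [Field K] [CharZero K] [Field M] [Algebra K M]

lemma tw_disc (A B d : K) :
    (tw K M A B d).Δ = algebraMap K M (-16 * (d ^ 6 * (4 * A ^ 3 + 27 * B ^ 2))) := by
  rw [WeierstrassCurve.Δ, WeierstrassCurve.b₂, WeierstrassCurve.b₄, WeierstrassCurve.b₆,
    WeierstrassCurve.b₈]
  simp only [tw, map_mul, map_add, map_pow, map_neg, map_ofNat]
  ring

lemma tw_ell {A B d : K} (hAB : 4 * A ^ 3 + 27 * B ^ 2 ≠ 0) (hd : d ≠ 0) :
    (tw K M A B d).IsElliptic := by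
  refine ⟨?_⟩
  rw [tw_disc, isUnit_iff_ne_zero]
  refine (map_ne_zero _).2 (mul_ne_zero ?_ (mul_ne_zero (pow_ne_zero 6 hd) hAB))
  norm_num

end Disc

/-- All curves with index in `D` have bounded two-primary part and finitely many points. -/
def GoodK {K : Type*} [Field K] (D : Set K) (A B : K) (M : Type) [Field M] [NumberField M]
    [Algebra K M] : Prop :=
  ∀ d ∈ D, Bdd M (tw K M A B d) ∧ Finite (tw K M A B d).toAffine.Point

variable {K : Type} [Field K] [NumberField K]

theorem goodK_step {D : Set K} (hD : Mul2K D) {A B : K} (hAB : 4 * A ^ 3 + 27 * B ^ 2 ≠ 0)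
    {M M' : Type} [Field M] [NumberField M] [Field M'] [NumberField M'] [Algebra K M] [Algebra K M']
    [Algebra M M'] [IsScalarTower K M M'] {d₀ : K}
    (hd₀ : d₀ ∈ D) {s : M'} (hs : s ^ 2 = algebraMap K M' d₀)
    (hgen : ∀ x : M', ∃ a b : M, x = algebraMap M M' a + algebraMap M M' b * s)
    (H : GoodK D A B M) : GoodK D A B M' := by
  have hd00 : algebraMap K M' d₀ ≠ 0 := (map_ne_zero _).2 (hD.ne d₀ hd₀)
  have hnorm : Normal M M' := H14T1.normal_quad (c := algebraMap K M d₀)
    (by rw [hs, ← IsScalarTower.algebraMap_apply K M M']) hgen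
  have hs0 : s ≠ 0 := by
    intro h0
    rw [h0, zero_pow two_ne_zero] at hs
    exact hd00 hs.symm
  have hsig : ∀ σ : M' ≃ₐ[M] M', σ s = s ∨ σ s = -s := by
    intro σ
    have h1 : (σ s) ^ 2 = s ^ 2 := by
      rw [← map_pow, hs, IsScalarTower.algebraMap_apply K M M', AlgEquiv.commutes]
    exact sq_eq_sq_iff_eq_or_eq_neg.1 h1
  have hfix : ∀ σ : M' ≃ₐ[M] M', σ s = s → σ = 1 := by
    intro σ h1
    ext x
    obtain ⟨a, b, hx⟩ := hgen x
    rw [hx, map_add, map_mul, AlgEquiv.commutes, AlgEquiv.commutes, h1]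
    simp
  intro d hd
  obtain ⟨d', hd', c, hc, hrel⟩ := hD.mul d hd d₀ hd₀
  have hc0 : algebraMap K M' c ≠ 0 := (map_ne_zero _).2 hc
  set s' : M' := s / algebraMap K M' c with hs'
  have hs'0 : s' ≠ 0 := div_ne_zero hs0 hc0
  have hdd : algebraMap K M' d' = s' ^ 2 * algebraMap K M' d := by
    have h1 : algebraMap K M' (d * d₀) = algebraMap K M' (d' * c ^ 2) := by rw [hrel]
    rw [map_mul, map_mul, map_pow] at h1
    rw [hs', div_pow, hs]
    field_simp
    linear_combination -h1
  have hR : Rsc s' (tw K M' A B d) (tw K M' A B d') := by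
    refine ⟨hs'0, ?_, ?_, ?_, ?_, ?_⟩
    · show (0 : M') = s' * 0
      rw [mul_zero]
    · show (0 : M') = s' ^ 2 * 0
      rw [mul_zero]
    · show (0 : M') = s' ^ 3 * 0
      rw [mul_zero]
    · show algebraMap K M' (d' ^ 2 * A) = s' ^ 4 * algebraMap K M' (d ^ 2 * A)
      rw [map_mul, map_mul, map_pow, map_pow, hdd]
      ring
    · show algebraMap K M' (d' ^ 3 * B) = s' ^ 6 * algebraMap K M' (d ^ 3 * B)
      rw [map_mul, map_mul, map_pow, map_pow, hdd]
      ring
  have hcσ : ∀ σ : M' ≃ₐ[M] M', σ s' = σ s / algebraMap K M' c := by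
    intro σ
    rw [hs', map_div₀, IsScalarTower.algebraMap_apply K M M' c, AlgEquiv.commutes]
  have hσ : ∀ σ : M' ≃ₐ[M] M', σ = 1 ∨ σ s' = -s' := by
    intro σ
    rcases hsig σ with h1 | h1
    · exact Or.inl (hfix σ h1)
    · right
      rw [hcσ, h1, hs', neg_div]
  have huniq : ∀ σ τ : M' ≃ₐ[M] M', σ s' = -s' → τ s' = -s' → σ = τ := by
    intro σ τ h1 h2
    have h3 : ∀ ρ : M' ≃ₐ[M] M', ρ s' = -s' → ρ s = -s := by
      intro ρ h4
      rw [hcσ, hs', ← neg_div, div_left_inj' hc0] at h4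
      exact h4
    ext x
    obtain ⟨a, b, hx⟩ := hgen x
    rw [hx, map_add, map_mul, map_add, map_mul, AlgEquiv.commutes, AlgEquiv.commutes,
      AlgEquiv.commutes, AlgEquiv.commutes, h3 σ h1, h3 τ h2]
  have hell : (tw K M' A B d).IsElliptic := tw_ell hAB (hD.ne d hd)
  exact ⟨bdd_step (tw_map K (M := M) (M' := M') A B d) (tw_map K (M := M) (M' := M') A B d')
      hR hσ huniq (H d hd).1 (H d' hd').1,
    fin_step (tw_map K (M := M) (M' := M') A B d) (tw_map K (M := M) (M' := M') A B d')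
      hR hσ huniq (H d hd).2 (H d' hd').2⟩

theorem goodK_triv {D : Set K} (hD : Mul2K D) {A B : K} (hAB : 4 * A ^ 3 + 27 * B ^ 2 ≠ 0)
    {M M' : Type} [Field M] [NumberField M] [Field M'] [NumberField M'] [Algebra K M] [Algebra K M']
    [Algebra M M'] [IsScalarTower K M M']
    (hs : Function.Surjective (algebraMap M M')) (H : GoodK D A B M) : GoodK D A B M' := by
  refine goodK_step hD hAB (M := M) (M' := M') hD.one (s := 1) (by simp) ?_ H
  intro x
  obtain ⟨a, ha⟩ := hs x
  exact ⟨a, 0, by simp [ha]⟩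

section Fields

variable {N F : Type} [Field N] [NumberField N] [Field F] [CharZero F] [Algebra N F]

/-- the field `k + k r` for `r ^ 2 ∈ k` -/
def ext2 (k : IntermediateField N F) (r : F) (hr : r ^ 2 ∈ k) :
    IntermediateField N F where
  carrier := {x | ∃ a ∈ k, ∃ b ∈ k, x = a + b * r}
  mul_mem' := by
    rintro x y ⟨a, ha, b, hb, rfl⟩ ⟨c, hc, d, hd, rfl⟩
    exact ⟨a * c + b * d * r ^ 2, k.add_mem (k.mul_mem ha hc) (k.mul_mem (k.mul_mem hb hd) hr),
      a * d + b * c, k.add_mem (k.mul_mem ha hd) (k.mul_mem hb hc), by ring⟩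
  one_mem' := ⟨1, k.one_mem, 0, k.zero_mem, by ring⟩
  add_mem' := by
    rintro x y ⟨a, ha, b, hb, rfl⟩ ⟨c, hc, d, hd, rfl⟩
    exact ⟨a + c, k.add_mem ha hc, b + d, k.add_mem hb hd, by ring⟩
  zero_mem' := ⟨0, k.zero_mem, 0, k.zero_mem, by ring⟩
  algebraMap_mem' := by
    intro c
    exact ⟨algebraMap N F c, k.algebraMap_mem c, 0, k.zero_mem, by ring⟩
  inv_mem' := by
    rintro x ⟨a, ha, b, hb, rfl⟩
    by_cases h0 : a + b * r = 0
    · exact ⟨0, k.zero_mem, 0, k.zero_mem, by rw [h0]; simp⟩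
    · by_cases h1 : a - b * r = 0
      · have h2 : a + b * r = 2 * a := by linear_combination -h1
        refine ⟨(2 * a)⁻¹, k.inv_mem (k.mul_mem ?_ ha), 0, k.zero_mem, by rw [h2]; ring⟩
        have : ((2 : ℕ) : F) ∈ k := natCast_mem k 2
        exact_mod_cast this
      · have h3 : a ^ 2 - b ^ 2 * r ^ 2 ≠ 0 := by
          have : a ^ 2 - b ^ 2 * r ^ 2 = (a + b * r) * (a - b * r) := by ring
          rw [this]
          exact mul_ne_zero h0 h1
        have hm : a ^ 2 - b ^ 2 * r ^ 2 ∈ k :=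
          k.sub_mem (pow_mem ha 2) (k.mul_mem (pow_mem hb 2) hr)
        refine ⟨a * (a ^ 2 - b ^ 2 * r ^ 2)⁻¹, k.mul_mem ha (k.inv_mem hm),
          -b * (a ^ 2 - b ^ 2 * r ^ 2)⁻¹, k.mul_mem (k.neg_mem hb) (k.inv_mem hm), ?_⟩
        have h4 : a * (a ^ 2 - b ^ 2 * r ^ 2)⁻¹ + -b * (a ^ 2 - b ^ 2 * r ^ 2)⁻¹ * r =
            (a - b * r) * (a ^ 2 - b ^ 2 * r ^ 2)⁻¹ := by ring
        rw [h4]
        have h5 : a ^ 2 - b ^ 2 * r ^ 2 = (a + b * r) * (a - b * r) := by ring
        rw [h5, mul_inv]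
        field_simp

variable [Algebra K N] [Algebra K F] [IsScalarTower K N F]

/-- `k` is a number field and good. -/
def GoodI (D : Set K) (A B : K) (k : IntermediateField N F) : Prop :=
  ∃ _ : NumberField k, GoodK D A B k

theorem goodI_adjoin {D : Set K} (hD : Mul2K D) {A B : K} (hAB : 4 * A ^ 3 + 27 * B ^ 2 ≠ 0)
    {k : IntermediateField N F} (hk : GoodI D A B k)
    {t : F} {d : K} (hd : d ∈ D) (ht : t ^ 2 = algebraMap K F d) :
    ∃ k' : IntermediateField N F, k ≤ k' ∧ t ∈ k' ∧ GoodI D A B k' := by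
  obtain ⟨hN, hk⟩ := hk
  have htF : t ^ 2 ∈ k := by
    rw [ht, IsScalarTower.algebraMap_apply K N F]
    exact k.algebraMap_mem _
  have hle : k ≤ ext2 k t htF := fun x hx => ⟨x, hx, 0, k.zero_mem, by ring⟩
  have htm : t ∈ ext2 k t htF := ⟨0, k.zero_mem, 1, k.one_mem, by ring⟩
  letI : Algebra k (ext2 k t htF) := (IntermediateField.inclusion hle).toRingHom.toAlgebra
  have hsc : IsScalarTower N k (ext2 k t htF) := IsScalarTower.of_algebraMap_eq fun x => rfl
  have hscK : IsScalarTower K k (ext2 k t htF) := IsScalarTower.of_algebraMap_eq fun x => rfl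
  have hgen : ∀ x : ext2 k t htF, ∃ a b : k,
      x = algebraMap k (ext2 k t htF) a + algebraMap k (ext2 k t htF) b * ⟨t, htm⟩ := by
    rintro ⟨x, a, ha, b, hb, hx⟩
    exact ⟨⟨a, ha⟩, ⟨b, hb⟩, Subtype.ext hx⟩
  have hfin : Module.Finite k (ext2 k t htF) := by
    refine ⟨⟨{1, ⟨t, htm⟩}, ?_⟩⟩
    rw [eq_top_iff]
    intro x _
    obtain ⟨a, b, hx⟩ := hgen x
    rw [hx, ← mul_one (algebraMap k (ext2 k t htF) a), ← Algebra.smul_def, ← Algebra.smul_def]
    refine Submodule.add_mem _ (Submodule.smul_mem _ _ (Submodule.subset_span ?_))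
      (Submodule.smul_mem _ _ (Submodule.subset_span ?_))
    · simp
    · simp
  have hfinQ : FiniteDimensional ℚ (ext2 k t htF) := Module.Finite.trans k _
  haveI hN' : NumberField (ext2 k t htF) :=
    { to_charZero := inferInstance, to_finiteDimensional := hfinQ }
  refine ⟨ext2 k t htF, hle, htm, hN', ?_⟩
  refine goodK_step hD hAB (M := k) (M' := ext2 k t htF) hd (s := ⟨t, htm⟩) ?_ hgen hk
  apply Subtype.ext
  exact ht

theorem goodI_finset {D : Set K} (hD : Mul2K D) {A B : K} (hAB : 4 * A ^ 3 + 27 * B ^ 2 ≠ 0)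
    {k : IntermediateField N F} (hk : GoodI D A B k)
    (T : Finset F) (hT : ∀ t ∈ T, ∃ d ∈ D, t ^ 2 = algebraMap K F d) :
    ∃ k' : IntermediateField N F, k ≤ k' ∧ (∀ t ∈ T, t ∈ k') ∧ GoodI D A B k' := by
  induction T using Finset.induction_on with
  | empty => exact ⟨k, le_rfl, by simp, hk⟩
  | insert t T _ ih =>
    obtain ⟨k', h1, h2, h3⟩ := ih fun t ht => hT t (Finset.mem_insert_of_mem ht)
    obtain ⟨d, hd, ht⟩ := hT t (Finset.mem_insert_self t T)
    obtain ⟨k'', h4, h5, h6⟩ := goodI_adjoin hD hAB h3 hd ht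
    refine ⟨k'', h1.trans h4, ?_, h6⟩
    intro x hx
    rcases Finset.mem_insert.1 hx with rfl | hx
    · exact h5
    · exact h4 (h2 x hx)

/-- Every element of the field generated by the square roots lies in a good number field. -/
theorem goodI_mem {D : Set K} (hD : Mul2K D) {A B : K} (hAB : 4 * A ^ 3 + 27 * B ^ 2 ≠ 0)
    {k : IntermediateField N F} (hk : GoodI D A B k) {x : F}
    (hx : x ∈ IntermediateField.adjoin N {s : F | ∃ d ∈ D, s ^ 2 = algebraMap K F d}) :
    ∃ k' : IntermediateField N F, k ≤ k' ∧ x ∈ k' ∧ GoodI D A B k' := by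
  obtain ⟨U, hU, hxU⟩ := IntermediateField.exists_finset_of_mem_adjoin hx
  obtain ⟨k', h4, h5, h6⟩ := goodI_finset hD hAB hk U (fun t ht => hU ht)
  refine ⟨k', h4, ?_, h6⟩
  have hle : IntermediateField.adjoin N (U : Set F) ≤ k' := by
    rw [IntermediateField.adjoin_le_iff]
    intro u hu
    exact h5 u hu
  exact hle hxU

/-- The base field. -/
theorem goodI_bot {D : Set K} (hD : Mul2K D) {A B : K} (hAB : 4 * A ^ 3 + 27 * B ^ 2 ≠ 0)
    (H : GoodK D A B N) : GoodI D A B (⊥ : IntermediateField N F) := by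
  have hfinN : FiniteDimensional N (⊥ : IntermediateField N F) := inferInstance
  have hfinQ : FiniteDimensional ℚ (⊥ : IntermediateField N F) := Module.Finite.trans N _
  haveI hN' : NumberField (⊥ : IntermediateField N F) :=
    { to_charZero := inferInstance, to_finiteDimensional := hfinQ }
  refine ⟨hN', goodK_triv hD hAB (M := N) ?_ H⟩
  intro x
  obtain ⟨y, hy⟩ := IntermediateField.mem_bot.1 x.2
  exact ⟨y, Subtype.ext hy⟩

/-- **The multiquadratic step.** -/
theorem multi {D : Set K} (hD : Mul2K D) {A B : K} (hAB : 4 * A ^ 3 + 27 * B ^ 2 ≠ 0)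
    (H : ∀ d ∈ D, Finite (tw K N A B d).toAffine.Point ∧ Sha2Trivial N (tw K N A B d))
    (M : IntermediateField K F) [NumberField M]
    (hM : ∀ x ∈ M, x ∈ IntermediateField.adjoin N {s : F | ∃ d ∈ D, s ^ 2 = algebraMap K F d})
    {d : K} (hd : d ∈ D) :
    Finite (tw K M A B d).toAffine.Point ∧ H14T1.TwoPartFinite M (tw K M A B d) := by
  have H' : GoodK D A B N := fun d hd => ⟨H14T1.bdd_of_sha2 (H d hd).2, (H d hd).1⟩
  obtain ⟨α, hα⟩ := Field.exists_primitive_element ℚ M
  obtain ⟨k', -, h2, hN, hG⟩ := goodI_mem hD hAB (goodI_bot (F := F) hD hAB H') (hM α α.2)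
  have hle : ∀ x : M, (x : F) ∈ k' := by
    have h3 : IntermediateField.adjoin ℚ {α} ≤
        ((k'.toSubfield.comap (algebraMap M F)).toIntermediateField fun q => by
          show algebraMap M F (algebraMap ℚ M q) ∈ k'
          have hq : algebraMap M F (algebraMap ℚ M q) = ((q : ℚ) : F) := by simp
          rw [hq]
          exact SubfieldClass.ratCast_mem k' q) := by
      rw [IntermediateField.adjoin_le_iff]
      intro y hy
      rw [Set.mem_singleton_iff] at hy
      subst hy
      exact h2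
    rw [hα] at h3
    exact fun x => h3 (IntermediateField.mem_top (x := x))
  let g : M →+* k' := (algebraMap M F).codRestrict k' hle
  letI : Algebra M k' := g.toAlgebra
  haveI : IsScalarTower K M k' := IsScalarTower.of_algebraMap_eq fun x => Subtype.ext rfl
  haveI : FiniteDimensional M k' := Module.Finite.of_restrictScalars_finite ℚ M k'
  obtain ⟨⟨n, hNb⟩, hfinF⟩ := hG d hd
  have hV : (tw K M A B d).map (algebraMap M k') = tw K k' A B d := tw_map K A B d
  have hfr : Module.finrank M k' ≠ 0 := Module.finrank_pos.ne'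
  haveI : (tw K M A B d).IsElliptic := tw_ell hAB (hD.ne d hd)
  constructor
  · exact Finite.of_injective (pm (algebraMap M k') hV) (pm_injective _ hV)
  · refine H14T1.twoPartFinite_of ((sha_finite_torsion (tw K M A B d)
      (2 ^ n * Module.finrank M k') (mul_ne_zero (by positivity) hfr)).subset ?_)
    rintro x ⟨m, hm⟩
    have h1 : 2 ^ n • Sha.res hV x = 0 := by
      refine hNb _ ⟨m, ?_⟩
      rw [← map_nsmul, hm, map_zero]
    have h2 := congrArg (Sha.cor hV) h1
    rw [map_nsmul, map_zero, Sha.cor_res, ← mul_nsmul'] at h2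
    exact h2

end Fields

end H30MQ
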