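import Pool.Agent.H30.MQ.Cg
import Pool.Agent.H30.PN.Sp

/-!
Project MP_78d38b_MX: places of a number field `K` which split completely in a given extension `N` and
have prescribed Legendre symbols; the configuration with auxiliary places which split completely in `N`.
-/

set_option autoImplicit false
set_option linter.unusedSectionVars false
open scoped Classical

open NumberField IsDedekindDomain Filter Topology Pool.Agent.H42.PC H38RT WithZero
open H38T1 (SC sc rep eo la OddP)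

namespace H30MQ

section Root

variable {K L : Type} [Field K] [NumberField K] [Field L] [NumberField L] [Algebra K L]
  [IsGalois K L]

/-- An integer fixed by the Frobenius element is congruent to an integer of `K`. -/
theorem int_of_frob {v : HeightOneSpectrum (𝓞 K)} {g : L ≃ₐ[K] L} (hF : IsFr K L v g) :
    ∃ w : HeightOneSpectrum (𝓞 L), w.asIdeal.LiesOver v.asIdeal ∧ ∀ x : 𝓞 L, g • x = x →
      ∃ n : 𝓞 K, algebraMap (𝓞 K) (𝓞 L) n - x ∈ w.asIdeal := by
  obtain ⟨w, hw, hfr⟩ := hF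
  refine ⟨w, hw, fun x hx => ?_⟩
  have hmaxv : v.asIdeal.IsMaximal := v.isMaximal
  have hmaxw : w.asIdeal.IsMaximal := w.isMaximal
  let _ : Field (𝓞 K ⧸ v.asIdeal) := Ideal.Quotient.field v.asIdeal
  let _ : Field (𝓞 L ⧸ w.asIdeal) := Ideal.Quotient.field w.asIdeal
  have hN0 : Ideal.absNorm v.asIdeal ≠ 0 := (Ideal.absNorm_eq_zero_iff.not).2 v.ne_bot
  have hfin : Finite (𝓞 K ⧸ v.asIdeal) := by
    apply Nat.finite_of_card_ne_zero
    exact hN0
  let _ : Fintype (𝓞 K ⧸ v.asIdeal) := Fintype.ofFinite _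
  have hle : v.asIdeal ≤ w.asIdeal.comap (algebraMap (𝓞 K) (𝓞 L)) := by
    rw [hw.over]
  let φ : (𝓞 K ⧸ v.asIdeal) →+* (𝓞 L ⧸ w.asIdeal) :=
    Ideal.quotientMap w.asIdeal (algebraMap (𝓞 K) (𝓞 L)) hle
  have h1 := hfr x
  have h3 : Nat.card (𝓞 K ⧸ w.asIdeal.under (𝓞 K)) = Fintype.card (𝓞 K ⧸ v.asIdeal) := by
    rw [← hw.over, Nat.card_eq_fintype_card]
  rw [h3] at h1
  have h4 : x - x ^ Fintype.card (𝓞 K ⧸ v.asIdeal) ∈ w.asIdeal := by
    have h5 : (MulSemiringAction.toAlgHom (𝓞 K) (𝓞 L) g) x = x := hx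
    rw [h5] at h1
    exact h1
  obtain ⟨q, hq⟩ : ∃ q : ℕ, q = Fintype.card (𝓞 K ⧸ v.asIdeal) := ⟨_, rfl⟩
  have hq1 : 1 < q := by
    rw [hq]
    exact Fintype.one_lt_card
  obtain ⟨y, hy⟩ : ∃ y : 𝓞 L ⧸ w.asIdeal, y = Ideal.Quotient.mk w.asIdeal x := ⟨_, rfl⟩
  have hyq : y ^ q = y := by
    have h6 := Ideal.Quotient.eq_zero_iff_mem.2 h4
    rw [map_sub, map_pow, sub_eq_zero, ← hy, ← hq] at h6
    exact h6.symm
  obtain ⟨P, hP⟩ : ∃ P : Polynomial (𝓞 L ⧸ w.asIdeal), P = Polynomial.X ^ q - Polynomial.X :=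
    ⟨_, rfl⟩
  have hP0 : P ≠ 0 := by
    rw [hP]
    exact FiniteField.X_pow_card_sub_X_ne_zero _ hq1
  have hPd : P.natDegree = q := by
    rw [hP]
    exact FiniteField.X_pow_card_sub_X_natDegree_eq _ hq1
  have hroot : ∀ z : 𝓞 L ⧸ w.asIdeal, z ^ q = z → z ∈ P.roots := by
    intro z hz
    rw [Polynomial.mem_roots hP0, hP, Polynomial.IsRoot.def, Polynomial.eval_sub,
      Polynomial.eval_pow, Polynomial.eval_X, hz, sub_self]
  have hmem : y ∈ Finset.univ.image φ := by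
    by_contra hcon
    have h7 : (insert y (Finset.univ.image φ)).val ⊆ P.roots := by
      intro z hz
      have hz' : z ∈ insert y (Finset.univ.image φ) := hz
      rcases Finset.mem_insert.1 hz' with h8 | h8
      · rw [h8]
        exact hroot y hyq
      · obtain ⟨b, -, rfl⟩ := Finset.mem_image.1 h8
        apply hroot
        rw [← map_pow, hq, FiniteField.pow_card]
    have h8 := Polynomial.card_le_degree_of_subset_roots h7
    rw [Finset.card_insert_of_notMem hcon, Finset.card_image_of_injective _ φ.injective,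
      Finset.card_univ, ← hq, hPd] at h8
    omega
  obtain ⟨b, -, hb⟩ := Finset.mem_image.1 hmem
  obtain ⟨n, rfl⟩ := Ideal.Quotient.mk_surjective b
  refine ⟨n, ?_⟩
  rw [← Ideal.Quotient.eq_zero_iff_mem, map_sub, ← hy, ← hb, sub_eq_zero]
  exact (Ideal.quotientMap_mk).symm

/-- If the Frobenius element at `v` fixes `N` then the minimal polynomial of an integer of `N` has a root
modulo `v`. -/
theorem root_of_frob {N : Type} [Field N] [NumberField N] [Algebra K N] [Algebra N L]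
    [IsScalarTower K N L] (a : 𝓞 N) {v : HeightOneSpectrum (𝓞 K)} {g : L ≃ₐ[K] L}
    (hF : IsFr K L v g) (hg : ∀ x : N, g (algebraMap N L x) = algebraMap N L x) :
    ∃ n : 𝓞 K, (minpoly (𝓞 K) a).eval n ∈ v.asIdeal := by
  obtain ⟨w, hw, hfix⟩ := int_of_frob hF
  obtain ⟨n, hn⟩ := hfix (algebraMap (𝓞 N) (𝓞 L) a) (by
    apply RingOfIntegers.coe_injective
    exact hg a)
  refine ⟨n, ?_⟩
  rw [hw.over]
  show algebraMap (𝓞 K) (𝓞 L) ((minpoly (𝓞 K) a).eval n) ∈ w.asIdeal
  have hψ : algebraMap (𝓞 K) (𝓞 L) = (algebraMap (𝓞 N) (𝓞 L)).comp (algebraMap (𝓞 K) (𝓞 N)) :=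
    IsScalarTower.algebraMap_eq (𝓞 K) (𝓞 N) (𝓞 L)
  have h1 : ((minpoly (𝓞 K) a).map (algebraMap (𝓞 K) (𝓞 L))).eval (algebraMap (𝓞 N) (𝓞 L) a) = 0 := by
    rw [Polynomial.eval_map, hψ, ← Polynomial.hom_eval₂]
    have h2 := minpoly.aeval (𝓞 K) a
    rw [Polynomial.aeval_def] at h2
    rw [h2, map_zero]
  have h2 : ((minpoly (𝓞 K) a).map (algebraMap (𝓞 K) (𝓞 L))).eval (algebraMap (𝓞 K) (𝓞 L) n) =
      algebraMap (𝓞 K) (𝓞 L) ((minpoly (𝓞 K) a).eval n) := by
    rw [Polynomial.eval_map, ← Polynomial.eval₂_at_apply]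
  have h3 := Polynomial.sub_dvd_eval_sub (algebraMap (𝓞 K) (𝓞 L) n) (algebraMap (𝓞 N) (𝓞 L) a)
    ((minpoly (𝓞 K) a).map (algebraMap (𝓞 K) (𝓞 L)))
  rw [h1, h2, sub_zero] at h3
  exact w.asIdeal.mem_of_dvd h3 hn

end Root

section Places

variable {K : Type} [Field K] [NumberField K]

/-- A Galois extension of `K` which contains `N` and square roots of the given elements. -/
theorem exists_fieldN (N : Type) [Field N] [NumberField N] [Algebra K N] (D : Finset (𝓞 K)) :
    ∃ (L : Type) (_ : Field L) (_ : NumberField L) (_ : Algebra K L) (_ : Algebra N L)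
    (_ : IsScalarTower K N L) (_ : IsGalois K L) (s : 𝓞 K → L),
    ∀ d ∈ D, s d ^ 2 = algebraMap K L (d : K) := by
  have h1 : ∀ d : 𝓞 K, ∃ s : AlgebraicClosure N,
      s ^ 2 = algebraMap K (AlgebraicClosure N) (d : K) :=
    fun d => IsAlgClosed.exists_pow_nat_eq _ two_pos
  choose s hs using h1
  have hfN : FiniteDimensional K N := Module.Finite.of_restrictScalars_finite ℚ K N
  have halg : Algebra.IsAlgebraic K (AlgebraicClosure N) :=
    Algebra.IsAlgebraic.trans K N (AlgebraicClosure N)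
  have hcl : IsAlgClosure K (AlgebraicClosure N) := ⟨inferInstance, halg⟩
  have hnΩ : Normal K (AlgebraicClosure N) := IsAlgClosure.normal K _
  let E₁ : IntermediateField K (AlgebraicClosure N) :=
    (IsScalarTower.toAlgHom K N (AlgebraicClosure N)).fieldRange
  let E₂ : IntermediateField K (AlgebraicClosure N) :=
    IntermediateField.adjoin K (D.image s : Set (AlgebraicClosure N))
  have hE₁ : FiniteDimensional K E₁ :=
    Module.Finite.of_surjective
      ((IsScalarTower.toAlgHom K N (AlgebraicClosure N)).rangeRestrict).toLinearMap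
      (IsScalarTower.toAlgHom K N (AlgebraicClosure N)).rangeRestrict_surjective
  have hE₂ : FiniteDimensional K E₂ := by
    refine IntermediateField.finiteDimensional_adjoin fun x _ => ?_
    exact (Algebra.IsAlgebraic.isAlgebraic (R := K) x).isIntegral
  obtain ⟨E, hEd⟩ : ∃ E : IntermediateField K (AlgebraicClosure N), E = E₁ ⊔ E₂ := ⟨_, rfl⟩
  have hE : FiniteDimensional K E := by
    rw [hEd]
    infer_instance
  let L : IntermediateField K (AlgebraicClosure N) :=
    IntermediateField.normalClosure K E (AlgebraicClosure N)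
  have hL : FiniteDimensional K L := inferInstance
  have hLn : Normal K L := inferInstance
  have hfinQ : FiniteDimensional ℚ L := Module.Finite.trans K _
  have hL' : NumberField L :=
    { to_charZero := inferInstance, to_finiteDimensional := hfinQ }
  have hG : IsGalois K L := { }
  have hEL : E ≤ L := IntermediateField.le_normalClosure E
  have hmem : ∀ d ∈ D, s d ∈ L := by
    intro d hd
    apply hEL
    rw [hEd]
    apply (le_sup_right : E₂ ≤ E₁ ⊔ E₂)
    apply IntermediateField.subset_adjoin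
    exact Finset.mem_coe.2 (Finset.mem_image_of_mem s hd)
  have hNL : ∀ x : N, algebraMap N (AlgebraicClosure N) x ∈ L := by
    intro x
    apply hEL
    rw [hEd]
    apply (le_sup_left : E₁ ≤ E₁ ⊔ E₂)
    exact ⟨x, rfl⟩
  let i : N →+* L := RingHom.codRestrict (algebraMap N (AlgebraicClosure N)) L hNL
  let hA : Algebra N L := i.toAlgebra
  have hT : IsScalarTower K N L := IsScalarTower.of_algebraMap_eq fun x =>
    Subtype.ext (IsScalarTower.algebraMap_apply K N (AlgebraicClosure N) x)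
  refine ⟨L, inferInstance, hL', inferInstance, hA, hT, hG,
    fun d => if h : d ∈ D then ⟨s d, hmem d h⟩ else 0, ?_⟩
  intro d hd
  simp only [dif_pos hd]
  apply Subtype.ext
  exact hs d

/-- Infinitely many places which split completely in `N` with prescribed Legendre symbols. -/
theorem exists_placesN (N : Type) [Field N] [NumberField N] [Algebra K N] (D : Finset (𝓞 K))
    (hD : ∀ d ∈ D, d ≠ 0) (φ : SC N →+ ZMod 2) :
    {v : HeightOneSpectrum (𝓞 K) | (2 : 𝓞 K) ∉ v.asIdeal ∧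
      (∃ ι : N →+* v.adicCompletion K, ∀ x : K,
        ι (algebraMap K N x) = algebraMap K (v.adicCompletion K) x) ∧
      ∀ d ∈ D, d ∉ v.asIdeal ∧ la v (sc (d : K)) = φ (sc (algebraMap K N (d : K)))}.Infinite := by
  obtain ⟨L, _, _, _, _, _, _, s, hs⟩ := exists_fieldN N D
  have hLN : IsGalois N L := IsGalois.tower_top_of_isGalois K N L
  have hinj : Function.Injective (algebraMap (𝓞 K) (𝓞 N)) := FaithfulSMul.algebraMap_injective _ _
  have hcoe : ∀ d : 𝓞 K, ((algebraMap (𝓞 K) (𝓞 N) d : 𝓞 N) : N) = algebraMap K N (d : K) :=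
    fun d => rfl
  obtain ⟨σ, hσ⟩ := exists_sigma (K := N) (L := L) (D.image (algebraMap (𝓞 K) (𝓞 N))) (by
      intro y hy
      obtain ⟨d, hd, rfl⟩ := Finset.mem_image.1 hy
      exact fun h => hD d hd (hinj (h.trans (map_zero _).symm)))
    (s ∘ Function.invFun (algebraMap (𝓞 K) (𝓞 N))) (by
      intro y hy
      obtain ⟨d, hd, rfl⟩ := Finset.mem_image.1 hy
      have h1 : Function.invFun (algebraMap (𝓞 K) (𝓞 N)) (algebraMap (𝓞 K) (𝓞 N) d) = d :=
        Function.leftInverse_invFun hinj d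
      rw [Function.comp_apply, h1, hs d hd, hcoe, ← IsScalarTower.algebraMap_apply K N L]) φ
  have hσ' : ∀ d ∈ D, σ (s d) = if φ (sc (algebraMap K N (d : K))) = 0 then s d else - s d := by
    intro d hd
    have h2 := hσ _ (Finset.mem_image_of_mem _ hd)
    have h1 : Function.invFun (algebraMap (𝓞 K) (𝓞 N)) (algebraMap (𝓞 K) (𝓞 N) d) = d :=
      Function.leftInverse_invFun hinj d
    rw [Function.comp_apply, h1, hcoe] at h2
    exact h2
  let τ : L ≃ₐ[K] L := σ.restrictScalars K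
  have hτN : ∀ x : N, τ (algebraMap N L x) = algebraMap N L x := fun x => σ.commutes x
  obtain ⟨a, ha⟩ := H30PN.Sp_gen K N
  obtain ⟨B, hB, hlift⟩ := H30PN.Sp_lift (K := K) a
  have hbad : (({v : HeightOneSpectrum (𝓞 K) | (2 : 𝓞 K) ∈ v.asIdeal} ∪
      ⋃ d ∈ D, {v : HeightOneSpectrum (𝓞 K) | d ∈ v.asIdeal}) ∪ B).Finite :=
    ((fin_mem two_ne_zero).union
      (Set.Finite.biUnion D.finite_toSet fun d hd => fin_mem (hD d hd))).union hB
  refine ((frob_infK τ).sdiff hbad).mono ?_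
  rintro v ⟨⟨g, hg, hF⟩, hv⟩
  have h2 : (2 : 𝓞 K) ∉ v.asIdeal := fun h => hv (Or.inl (Or.inl h))
  have hgN : ∀ x : N, g (algebraMap N L x) = algebraMap N L x := by
    intro x
    have h3 := same_sign (g := g) (σ := τ) hg (s := algebraMap N L x) (e := 0)
      (by rw [if_pos rfl]; exact hτN x)
    rw [if_pos rfl] at h3
    exact h3
  refine ⟨h2, ?_, fun d hd => ?_⟩
  · obtain ⟨n, hn⟩ := root_of_frob a hF hgN
    obtain ⟨t, ht⟩ := hlift v (fun h => hv (Or.inr h)) n hn
    exact H30PN.Sp_emb ha ht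
  · have hdv : d ∉ v.asIdeal := fun h => hv (Or.inl (Or.inr (Set.mem_biUnion hd h)))
    exact ⟨hdv, la_of_frob hF h2 hdv (hs d hd) (same_sign hg (hσ' d hd))⟩

/-- The parity of the order at an embedding into a completion. -/
noncomputable def phi {N : Type} [Field N] [NumberField N] {v : HeightOneSpectrum (𝓞 K)}
    (ι : N →+* v.adicCompletion K) : SC N →+ ZMod 2 where
  toFun c := ((log (Valued.v (ι (rep c))) : ℤ) : ZMod 2)
  map_zero' := by
    obtain ⟨y, hy, h⟩ := H38T1.rep_sc (K := N) one_ne_zero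
    have h1 : sc (1 : N) = 0 := (H38T1.sc_eq_zero one_ne_zero).2 ⟨1, (mul_one 1).symm⟩
    rw [h1, one_mul] at h
    have hne : Valued.v (ι y) ≠ 0 := (Valuation.ne_zero_iff _).2 ((map_ne_zero ι).2 hy)
    rw [h, map_pow, map_pow, sq, log_mul hne hne]
    push_cast
    exact CharTwo.add_self_eq_zero _
  map_add' c c' := by
    obtain ⟨y, hy, h⟩ := H38T1.rep_sc (K := N) (mul_ne_zero (H38T1.rep_ne c) (H38T1.rep_ne c'))
    rw [H38T1.sc_mul (H38T1.rep_ne c) (H38T1.rep_ne c'), H38T1.sc_rep, H38T1.sc_rep] at h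
    have hne : ∀ z : N, z ≠ 0 → Valued.v (ι z) ≠ 0 := fun z hz =>
      (Valuation.ne_zero_iff _).2 ((map_ne_zero ι).2 hz)
    rw [h, map_mul, map_mul, map_mul, map_mul, map_pow, map_pow, sq,
      log_mul (mul_ne_zero (hne _ (H38T1.rep_ne c)) (hne _ (H38T1.rep_ne c')))
        (mul_ne_zero (hne _ hy) (hne _ hy)),
      log_mul (hne _ (H38T1.rep_ne c)) (hne _ (H38T1.rep_ne c')), log_mul (hne _ hy) (hne _ hy)]
    push_cast
    rw [CharTwo.add_self_eq_zero, add_zero]

theorem phi_sc {N : Type} [Field N] [NumberField N] [Algebra K N] {v : HeightOneSpectrum (𝓞 K)}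
    (ι : N →+* v.adicCompletion K)
    (hι : ∀ x : K, ι (algebraMap K N x) = algebraMap K (v.adicCompletion K) x) {x : K} (hx : x ≠ 0) :
    phi ι (sc (algebraMap K N x)) = eo v (sc x) := by
  obtain ⟨y, hy, h⟩ := H38T1.rep_sc (K := N) ((map_ne_zero (algebraMap K N)).2 hx)
  have hne : ∀ z : N, z ≠ 0 → Valued.v (ι z) ≠ 0 := fun z hz =>
    (Valuation.ne_zero_iff _).2 ((map_ne_zero ι).2 hz)
  show ((log (Valued.v (ι (rep (sc (algebraMap K N x))))) : ℤ) : ZMod 2) = _
  have hval : Valued.v (ι (algebraMap K N x)) = v.valuation K x := by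
    rw [hι]
    exact v.valuedAdicCompletion_eq_valuation' x
  rw [h, map_mul, map_mul, map_pow, map_pow, sq,
    log_mul (hne _ ((map_ne_zero (algebraMap K N)).2 hx)) (mul_ne_zero (hne _ hy) (hne _ hy)),
    log_mul (hne _ hy) (hne _ hy), hval, H38T1.eo_sc hx]
  unfold ord
  push_cast
  rw [CharTwo.add_self_eq_zero, add_zero]
  have h2 : ∀ a : ZMod 2, a = -a := by decide
  exact h2 _

/-- **Existence of the configuration**, with auxiliary places which split completely in `N`. -/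
theorem exists_cfgN (N : Type) [Field N] [NumberField N] [Algebra K N]
    (h2 : ∀ v : HeightOneSpectrum (𝓞 K), (2 : 𝓞 K) ∈ v.asIdeal →
      H76PP.Nv v = 2 ∧ (2 : 𝓞 K) ∉ v.asIdeal ^ 2)
    (hN : ∀ v : HeightOneSpectrum (𝓞 K), (2 : 𝓞 K) ∈ v.asIdeal → ∃ ι : N →+* v.adicCompletion K,
      ∀ x : K, ι (algebraMap K N x) = algebraMap K (v.adicCompletion K) x)
    (R₀ : Finset (HeightOneSpectrum (𝓞 K))) (hR₀ : ∀ v ∈ R₀, (2 : 𝓞 K) ∉ v.asIdeal)
    (D : Finset (𝓞 K)) (hD : ∀ d ∈ D, d ≠ 0) :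
    ∃ C : H76MQ.Cfg K, C.Ok ∧ R₀ ⊆ C.R ∧ (∀ v ∈ C.P, ∃ ι : N →+* (C.a v).adicCompletion K,
      ∀ x : K, ι (algebraMap K N x) = algebraMap K ((C.a v).adicCompletion K) x) ∧
      ∀ d ∈ Submonoid.closure (D : Set (𝓞 K)), H76MQ.TwOk C d := by
  have hPf : {v : HeightOneSpectrum (𝓞 K) | (2 : 𝓞 K) ∈ v.asIdeal}.Finite := fin_mem two_ne_zero
  have h3f : {v : HeightOneSpectrum (𝓞 K) | (3 : 𝓞 K) ∈ v.asIdeal}.Finite := fin_mem (by
    intro h
    have h1 : algebraMap (𝓞 K) K 3 = 0 := by rw [h, map_zero]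
    rw [map_ofNat] at h1
    exact three_ne_zero h1)
  have hDf : (⋃ d ∈ D, {v : HeightOneSpectrum (𝓞 K) | d ∈ v.asIdeal}).Finite :=
    Set.Finite.biUnion D.finite_toSet fun d hd => fin_mem (hD d hd)
  have hRf : {v : HeightOneSpectrum (𝓞 K) | (2 : 𝓞 K) ∉ v.asIdeal ∧ (((3 : 𝓞 K) ∈ v.asIdeal ∨
      ∃ d ∈ D, d ∈ v.asIdeal) ∨ v ∈ R₀)}.Finite := by
    refine ((h3f.union hDf).union R₀.finite_toSet).subset ?_
    rintro v ⟨-, (h | ⟨d, hd, hdv⟩) | h⟩
    · exact Or.inl (Or.inl h)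
    · exact Or.inl (Or.inr (Set.mem_biUnion hd hdv))
    · exact Or.inr h
  have hrange : ∀ v ∈ hPf.toFinset, ({u : HeightOneSpectrum (𝓞 K) |
      (∃ ι : N →+* u.adicCompletion K,
        ∀ x : K, ι (algebraMap K N x) = algebraMap K (u.adicCompletion K) x) ∧
      (6 : 𝓞 K) ∉ u.asIdeal ∧ u ∉ hRf.toFinset ∧
      ∀ d ∈ D, la u (sc (d : K)) = eo v (sc (d : K))}).Infinite := by
    intro v hv
    obtain ⟨ι, hι⟩ := hN v (hPf.mem_toFinset.1 hv)
    refine (((exists_placesN N D hD (phi ι)).sdiff h3f).sdiff R₀.finite_toSet).mono ?_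
    rintro u ⟨⟨⟨hu2, huN, hu⟩, hu3⟩, huR⟩
    have hmax : u.asIdeal.IsPrime := u.isPrime
    refine ⟨huN, ?_, ?_, fun d hd => ?_⟩
    · intro h6
      have h7 : (6 : 𝓞 K) = 2 * 3 := by norm_num
      rw [h7] at h6
      rcases hmax.mem_or_mem h6 with h | h
      · exact hu2 h
      · exact hu3 h
    · intro h
      rw [Set.Finite.mem_toFinset] at h
      rcases h.2 with (h | ⟨d, hd, hdv⟩) | h
      · exact hu3 h
      · exact (hu d hd).1 hdv
      · exact huR h
    · rw [(hu d hd).2, phi_sc ι hι (coe_ne (hD d hd))]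
  obtain ⟨u₀, -⟩ := (exists_places (K := K) ∅ (fun d hd => absurd hd (Finset.notMem_empty d)) 0).nonempty
  obtain ⟨a, ha1, ha2⟩ := exists_injOn hPf.toFinset _ hrange u₀
  obtain ⟨C, hC⟩ : ∃ C : H76MQ.Cfg K, C = ⟨hPf.toFinset, a, hRf.toFinset⟩ := ⟨_, rfl⟩
  have hOk : C.Ok := by
    rw [hC]
    refine ⟨fun v => Set.Finite.mem_toFinset _, fun v hv => ?_, fun v hv => ?_,
      fun v hv => (ha1 v hv).2.1, ha2, fun v hv => (ha1 v hv).2.2.1, fun v hv => ?_, fun v hv => ?_⟩
    · have h4 : v ∈ hPf.toFinset := hv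
      exact (h2 v (hPf.mem_toFinset.1 h4)).1
    · have h4 : v ∈ hPf.toFinset := hv
      exact (h2 v (hPf.mem_toFinset.1 h4)).2
    · exact ((Set.Finite.mem_toFinset _).1 hv).1
    · refine (Set.Finite.mem_toFinset _).2 ⟨fun h => ?_, Or.inl (Or.inl hv)⟩
      apply v.isPrime.ne_top
      rw [Ideal.eq_top_iff_one]
      have h4 := v.asIdeal.sub_mem hv h
      have h5 : (3 : 𝓞 K) - 2 = 1 := by norm_num
      rwa [h5] at h4
  refine ⟨C, hOk, fun v hv => ?_, fun v hv => ?_, fun d hd => ?_⟩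
  · rw [hC]
    exact (Set.Finite.mem_toFinset _).2 ⟨hR₀ v hv, Or.inr hv⟩
  · rw [hC] at hv ⊢
    exact (ha1 v hv).1
  induction hd using Submonoid.closure_induction with
  | mem d hd =>
    refine ⟨hD d hd, fun v hv => ?_, fun v hv hv' => ?_⟩
    · rw [hC] at hv ⊢
      exact (ha1 v hv).2.2.2 d hd
    · apply eo_unit (hD d hd)
      intro hdv
      rw [hC] at hv hv'
      apply hv'
      refine (Set.Finite.mem_toFinset _).2 ⟨fun h => hv ((Set.Finite.mem_toFinset _).2 h),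
        Or.inl (Or.inr ⟨d, hd, hdv⟩)⟩
  | one => exact twOk_one hOk
  | mul x y _ _ hx hy => exact twOk_mul hOk hx hy

end Places

end H30MQ
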