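import Pool.Agent.H93.T1.Cf
import Pool.Agent.H38.T1.Ea

/-!
Project MP_78d38b_MQT: places of a number field with prescribed Legendre symbols
(Frobenius density theorem over a number field, Kummer duality).
-/

set_option autoImplicit false
set_option linter.unusedSectionVars false
open scoped Classical

open NumberField IsDedekindDomain Filter Topology Pool.Agent.H42.PC H38RT
open H38T1 (SC sc rep eo la OddP)

namespace H30MQ

section Frob

variable {K L : Type} [Field K] [NumberField K] [Field L] [NumberField L] [Algebra K L]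
  [IsGalois K L]

theorem frob_infK (σ : L ≃ₐ[K] L) :
    {v : HeightOneSpectrum (𝓞 K) | ∃ g : L ≃ₐ[K] L,
      Subgroup.zpowers g = Subgroup.zpowers σ ∧ IsFr K L v g}.Infinite := by
  have : Fintype (L ≃ₐ[K] L) := Fintype.ofFinite _
  have hcard : (Nat.card (L ≃ₐ[K] L) : ℝ) ≠ 0 := by
    have : Nat.card (L ≃ₐ[K] L) ≠ 0 := Nat.card_pos.ne'
    exact_mod_cast this
  set C := Subgroup.zpowers σ with hC
  have hmem : H93T1.Cf_A C ∈ BFin_S K L := H93T1.Cf_span (BFin_S K L) (fun C => by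
    have h1 := avg_tht (pith K) (fun M : IntermediateField K L => pith M) C
    change Tendsto (avg K L (tht C)) atTop (𝓝 ((∑ g, tht C g) / Nat.card (L ≃ₐ[K] L)))
    rw [tht_mean, div_self hcard]
    exact h1) _ C rfl
  have hlim : Tendsto (avg K L (H93T1.Cf_A C)) atTop
    (𝓝 ((∑ g, H93T1.Cf_A C g) / Nat.card (L ≃ₐ[K] L))) := hmem
  have hnn : ∀ g, 0 ≤ H93T1.Cf_A C g := fun g => Nat.cast_nonneg _
  have hpos : 0 < ∑ g, H93T1.Cf_A C g := by
    refine Finset.sum_pos' (fun g _ => hnn g) ⟨σ, Finset.mem_univ _, ?_⟩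
    unfold H93T1.Cf_A
    have : Nonempty {x : L ≃ₐ[K] L // Subgroup.zpowers (x⁻¹ * σ * x) = C} :=
      ⟨⟨1, by rw [inv_one, one_mul, mul_one]⟩⟩
    exact_mod_cast Nat.card_pos
  set c := (∑ g, H93T1.Cf_A C g) / Nat.card (L ≃ₐ[K] L) with hc
  have hcpos : 0 < c := by
    apply div_pos hpos
    exact lt_of_le_of_ne (Nat.cast_nonneg _) (Ne.symm hcard)
  set B : Set (HeightOneSpectrum (𝓞 K)) := {v | Un K L v ∧ H93T1.Cf_A C (frb K L v) ≠ 0} with hB
  have hBinf : B.Infinite := by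
    intro hfin
    have hbound : ∀ X : ℕ, avg K L (H93T1.Cf_A C) X ≤
        (∑ v ∈ hfin.toFinset, H93T1.Cf_A C (frb K L v)) / prc K Set.univ X := by
      intro X
      unfold avg
      apply div_le_div_of_nonneg_right _ (Nat.cast_nonneg _)
      rw [finsum_mem_eq_finite_toFinset_sum _ (BAvg_unfin X),
        ← Finset.sum_filter_ne_zero]
      apply Finset.sum_le_sum_of_subset_of_nonneg
      · intro v hv
        rw [Finset.mem_filter, Set.Finite.mem_toFinset] at hv
        rw [Set.Finite.mem_toFinset]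
        exact ⟨hv.1.1, hv.2⟩
      · intro v _ _
        exact hnn _
    have h0 : Tendsto (fun X : ℕ => (∑ v ∈ hfin.toFinset, H93T1.Cf_A C (frb K L v)) /
        (prc K Set.univ X : ℝ)) atTop (𝓝 0) :=
      Tendsto.div_atTop tendsto_const_nhds (prc_tendsto (pith K))
    have h1 := le_of_tendsto_of_tendsto' hlim h0 hbound
    linarith
  refine hBinf.mono ?_
  rintro v ⟨-, hv⟩
  have hne : Nat.card {x : L ≃ₐ[K] L // Subgroup.zpowers (x⁻¹ * frb K L v * x) = C} ≠ 0 := by
    intro h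
    apply hv
    unfold H93T1.Cf_A
    rw [h, Nat.cast_zero]
  obtain ⟨x, hx⟩ : ∃ x : L ≃ₐ[K] L, Subgroup.zpowers (x⁻¹ * frb K L v * x) = C := by
    by_contra hcon
    apply hne
    rw [Nat.card_eq_zero]
    left
    exact ⟨fun y => hcon ⟨y.1, y.2⟩⟩
  refine ⟨_, hx, ?_⟩
  have := fr_conj' (BAvg_frb (K := K) (L := L) v) x⁻¹
  rwa [inv_inv] at this

/-- For an automorphism `σ` with `σ² = 1` the place has Frobenius element `σ`. -/
theorem frob_inf2 (σ : L ≃ₐ[K] L) (hσ : σ * σ = 1) :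
    {v : HeightOneSpectrum (𝓞 K) | IsFr K L v σ}.Infinite := by
  refine (frob_infK σ).mono ?_
  rintro v ⟨g, hg, hF⟩
  have h1 : g ∈ Subgroup.zpowers σ := by
    rw [← hg]
    exact Subgroup.mem_zpowers _
  have h2 : σ ∈ Subgroup.zpowers g := by
    rw [hg]
    exact Subgroup.mem_zpowers _
  have hz : ∀ n : ℤ, σ ^ n = 1 ∨ σ ^ n = σ := by
    intro n
    rcases Int.even_or_odd' n with ⟨k, hk | hk⟩
    · left
      rw [hk, zpow_mul, zpow_two, hσ, one_zpow]
    · right
      rw [hk, zpow_add, zpow_mul, zpow_two, hσ, one_zpow, one_mul, zpow_one]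
  obtain ⟨n, hn⟩ := Subgroup.mem_zpowers_iff.1 h1
  have h3 : g = σ := by
    rcases hz n with h | h
    · have hg1 : g = 1 := by rw [← hn, h]
      obtain ⟨m, hm⟩ := Subgroup.mem_zpowers_iff.1 h2
      rw [hg1, one_zpow] at hm
      rw [hg1, hm]
    · rw [← hn, h]
  rw [← h3]
  exact hF

/-- Euler's criterion in the residue field. -/
theorem euler {p m : ℕ} (hp2 : p = 2 * m + 1)
    {v : HeightOneSpectrum (𝓞 K)} (hv : (p : 𝓞 K) ∈ v.asIdeal)
    (hN : Ideal.absNorm v.asIdeal = p) {y : 𝓞 K} (hy : y ∉ v.asIdeal) :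
    (∃ a : 𝓞 K, y - a ^ 2 ∈ v.asIdeal) ↔ y ^ m - 1 ∈ v.asIdeal := by
  have hmax : v.asIdeal.IsMaximal := v.isMaximal
  let _ : Field (𝓞 K ⧸ v.asIdeal) := Ideal.Quotient.field v.asIdeal
  have hfin : Finite (𝓞 K ⧸ v.asIdeal) := by
    apply Nat.finite_of_card_ne_zero
    have h1 : Nat.card (𝓞 K ⧸ v.asIdeal) = p := hN
    rw [h1]
    omega
  let _ : Fintype (𝓞 K ⧸ v.asIdeal) := Fintype.ofFinite _
  have hcard : Fintype.card (𝓞 K ⧸ v.asIdeal) = p := by
    rw [← Nat.card_eq_fintype_card]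
    exact hN
  have hy0 : Ideal.Quotient.mk v.asIdeal y ≠ 0 := fun h => hy (Ideal.Quotient.eq_zero_iff_mem.1 h)
  have hchar : ringChar (𝓞 K ⧸ v.asIdeal) ≠ 2 := by
    intro hc
    have h3 : (2 : 𝓞 K ⧸ v.asIdeal) = 0 := by
      have h4 : ((ringChar (𝓞 K ⧸ v.asIdeal) : ℕ) : 𝓞 K ⧸ v.asIdeal) = 0 :=
        ringChar.Nat.cast_ringChar
      rw [hc] at h4
      exact_mod_cast h4
    have h5 : ((p : ℕ) : 𝓞 K ⧸ v.asIdeal) = 0 := by
      have h6 := Ideal.Quotient.eq_zero_iff_mem.2 hv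
      rw [map_natCast] at h6
      exact h6
    rw [hp2] at h5
    push_cast at h5
    rw [h3, zero_mul, zero_add] at h5
    exact one_ne_zero h5
  have hE := FiniteField.isSquare_iff hchar hy0
  rw [hcard] at hE
  have hm : p / 2 = m := by omega
  rw [hm] at hE
  constructor
  · rintro ⟨a, ha⟩
    have h1 : IsSquare (Ideal.Quotient.mk v.asIdeal y) := by
      refine ⟨Ideal.Quotient.mk v.asIdeal a, ?_⟩
      rw [← map_mul, Ideal.Quotient.eq, ← sq]
      exact ha
    have h2 := hE.1 h1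
    rw [← map_pow, ← map_one (Ideal.Quotient.mk v.asIdeal), Ideal.Quotient.eq] at h2
    exact h2
  · intro h
    have h1 : (Ideal.Quotient.mk v.asIdeal y) ^ m = 1 := by
      rw [← map_pow, ← map_one (Ideal.Quotient.mk v.asIdeal), Ideal.Quotient.eq]
      exact h
    obtain ⟨b, hb⟩ := hE.2 h1
    obtain ⟨a, rfl⟩ := Ideal.Quotient.mk_surjective b
    refine ⟨a, ?_⟩
    rw [← map_mul, Ideal.Quotient.eq, ← sq] at hb
    exact hb

end Frob

section Leg

variable {K : Type} [Field K] [NumberField K]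

theorem val_c_le (v : HeightOneSpectrum (𝓞 K)) (x : 𝓞 K) : v.valuation K (x : K) ≤ 1 :=
  v.valuation_le_one x

/-- The Legendre class of a unit at an odd place. -/
theorem la_iff {v : HeightOneSpectrum (𝓞 K)} (hv : OddP v) {d : 𝓞 K} (hd : d ∉ v.asIdeal) :
    la v (sc (d : K)) = 0 ↔ ∃ a : 𝓞 K, d - a ^ 2 ∈ v.asIdeal := by
  have hd0 : (d : K) ≠ 0 := by
    intro h
    apply hd
    have h1 : d = 0 := RingOfIntegers.coe_injective (h.trans (map_zero _).symm)
    rw [h1]
    exact v.asIdeal.zero_mem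
  have hVd : v.valuation K (d : K) = 1 := v.valuation_eq_one_iff_notMem.mpr hd
  rw [H38T1.la_sc hv hd0, lam_unit hVd]
  have h0 : (if Sq (v.valuation K) (d : K) then (0 : ZMod 2) else 1) = 0 ↔
      Sq (v.valuation K) (d : K) := by
    split_ifs with h
    · exact ⟨fun _ => h, fun _ => rfl⟩
    · exact ⟨fun h1 => absurd h1 one_ne_zero, fun h1 => absurd h1 h⟩
  rw [h0]
  constructor
  · rintro ⟨t, ht⟩
    have ht1 : v.valuation K t ≤ 1 := by
      by_contra hcon
      have h1 : 1 < v.valuation K t := not_le.1 hcon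
      have h2 : 1 < v.valuation K (t ^ 2) := by
        rw [map_pow]
        exact one_lt_pow₀ h1 two_ne_zero
      have h3 : v.valuation K ((d : K) - t ^ 2) = v.valuation K (t ^ 2) :=
        Valuation.map_sub_eq_of_lt_right _ (by rw [hVd]; exact h2)
      rw [h3] at ht
      exact absurd ht (not_lt.2 h2.le)
    obtain ⟨b, ⟨c, hc⟩, hbc⟩ := v.exists_primeCompl_mul_eq_of_integer t ht1
    have hc' : c ∉ v.asIdeal := hc
    have hmax : v.asIdeal.IsMaximal := v.isMaximal
    have hVc : v.valuation K (c : K) = 1 := v.valuation_eq_one_iff_notMem.mpr hc'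
    obtain ⟨e, he⟩ := Ideal.Quotient.exists_inv (I := v.asIdeal)
      (a := Ideal.Quotient.mk v.asIdeal c) (fun h => hc' (Ideal.Quotient.eq_zero_iff_mem.1 h))
    obtain ⟨e, rfl⟩ := Ideal.Quotient.mk_surjective e
    rw [← map_mul, ← map_one (Ideal.Quotient.mk v.asIdeal), Ideal.Quotient.eq] at he
    have h5 : d * c ^ 2 - b ^ 2 ∈ v.asIdeal := by
      rw [← v.valuation_lt_one_iff_mem (K := K)]
      have h2 : t * algebraMap (𝓞 K) K c = algebraMap (𝓞 K) K b := hbc
      have h1 : algebraMap (𝓞 K) K (d * c ^ 2 - b ^ 2) =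
          (algebraMap (𝓞 K) K d - t ^ 2) * algebraMap (𝓞 K) K c ^ 2 := by
        rw [map_sub, map_mul, map_pow, map_pow, ← h2]
        ring
      have h3 : v.valuation K (algebraMap (𝓞 K) K (d * c ^ 2 - b ^ 2)) < 1 := by
        have hVc' : v.valuation K (algebraMap (𝓞 K) K c) = 1 := hVc
        rw [h1, map_mul, map_pow, hVc', one_pow, mul_one]
        exact ht
      exact h3
    refine ⟨b * e, ?_⟩
    have h6 : d - (b * e) ^ 2 = (d * c ^ 2 - b ^ 2) * e ^ 2 - d * (c * e + 1) * (c * e - 1) := by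
      ring
    rw [h6]
    exact v.asIdeal.sub_mem (v.asIdeal.mul_mem_right _ h5) (v.asIdeal.mul_mem_left _ he)
  · rintro ⟨a, ha⟩
    refine ⟨(a : K), ?_⟩
    have h2 := (v.valuation_lt_one_iff_mem (K := K) (d - a ^ 2)).2 ha
    have h3 : algebraMap (𝓞 K) K (d - a ^ 2) =
        algebraMap (𝓞 K) K d - algebraMap (𝓞 K) K a ^ 2 := by
      rw [map_sub, map_pow]
    have h4 : v.valuation K (algebraMap (𝓞 K) K (d - a ^ 2)) < 1 := h2
    rw [h3] at h4
    exact h4

variable {L : Type} [Field L] [NumberField L] [Algebra K L] [IsGalois K L]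

/-- The Legendre class from the Frobenius element. -/
theorem la_of_frob {v : HeightOneSpectrum (𝓞 K)} {σ : L ≃ₐ[K] L} (hF : IsFr K L v σ)
    (h2 : (2 : 𝓞 K) ∉ v.asIdeal) {d : 𝓞 K} (hd : d ∉ v.asIdeal) {s : L}
    (hs : s ^ 2 = algebraMap K L (d : K)) {e : ZMod 2} (he : σ s = if e = 0 then s else - s) :
    la v (sc (d : K)) = e := by
  have hodd : OddP v := by
    have h3 : v.valuation K ((2 : 𝓞 K) : K) = 1 := v.valuation_eq_one_iff_notMem.mpr h2
    have h4 : ((2 : 𝓞 K) : K) = 2 := map_ofNat _ 2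
    rw [h4] at h3
    exact h3
  obtain ⟨w, hw, hfr⟩ := hF
  have hprime : w.asIdeal.IsPrime := w.isPrime
  have hmem : ∀ a : 𝓞 K, a ∈ v.asIdeal ↔ algebraMap (𝓞 K) (𝓞 L) a ∈ w.asIdeal := by
    intro a
    rw [hw.over, Ideal.mem_comap]
  obtain ⟨Q, hQ⟩ : ∃ Q : ℕ, Q = Ideal.absNorm v.asIdeal := ⟨_, rfl⟩
  have hv : (Q : 𝓞 K) ∈ v.asIdeal := by
    rw [hQ]
    exact Ideal.absNorm_mem _
  have hQodd : Odd Q := by
    rw [← Nat.not_even_iff_odd]
    intro hev
    obtain ⟨p, hp, hpv, -⟩ := BCnt_prime v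
    -- the residue field has characteristic p and Q elements
    have hmax : v.asIdeal.IsMaximal := v.isMaximal
    let _ : Field (𝓞 K ⧸ v.asIdeal) := Ideal.Quotient.field v.asIdeal
    have hfin : Finite (𝓞 K ⧸ v.asIdeal) := by
      apply Nat.finite_of_card_ne_zero
      have h1 : Nat.card (𝓞 K ⧸ v.asIdeal) = Q := hQ.symm
      rw [h1, hQ]
      exact (Ideal.absNorm_eq_zero_iff.not).2 v.ne_bot
    let _ : Fintype (𝓞 K ⧸ v.asIdeal) := Fintype.ofFinite _
    have hcard : Fintype.card (𝓞 K ⧸ v.asIdeal) = Q := by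
      rw [← Nat.card_eq_fintype_card, hQ]
      rfl
    have h3 : (2 : 𝓞 K ⧸ v.asIdeal) ≠ 0 := by
      intro h
      apply h2
      rw [← Ideal.Quotient.eq_zero_iff_mem, map_ofNat]
      exact h
    have h4 : ringChar (𝓞 K ⧸ v.asIdeal) ≠ 2 := by
      intro h
      apply h3
      have h5 : ((ringChar (𝓞 K ⧸ v.asIdeal) : ℕ) : 𝓞 K ⧸ v.asIdeal) = 0 :=
        ringChar.Nat.cast_ringChar
      rw [h] at h5
      exact_mod_cast h5
    have h5 := FiniteField.odd_card_of_char_ne_two h4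
    rw [hcard] at h5
    rw [Nat.even_iff] at hev
    omega
  obtain ⟨m, hm⟩ := hQodd
  have hψ : ∀ x : 𝓞 L, σ • x - x ^ Q ∈ w.asIdeal := by
    intro x
    have h1 := hfr x
    have h3 : Nat.card (𝓞 K ⧸ w.asIdeal.under (𝓞 K)) = Q := by
      rw [← hw.over, hQ, Ideal.absNorm_apply, Submodule.cardQuot_apply]
    rw [h3] at h1
    exact h1
  have hs2 : s ^ 2 = algebraMap (𝓞 L) L (algebraMap (𝓞 K) (𝓞 L) d) := by
    rw [hs]
    rfl
  have hint : IsIntegral ℤ s := by
    apply IsIntegral.of_pow two_pos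
    rw [hs2]
    exact RingOfIntegers.isIntegral_coe _
  obtain ⟨S, hS⟩ : ∃ S : 𝓞 L, algebraMap (𝓞 L) L S = s := ⟨⟨_, hint⟩, rfl⟩
  have hinj : Function.Injective (algebraMap (𝓞 L) L) := RingOfIntegers.coe_injective
  have hS2 : S ^ 2 = algebraMap (𝓞 K) (𝓞 L) d := by
    apply hinj
    rw [map_pow, hS, hs2]
  have hφS : σ • S = (if e = 0 then (1 : 𝓞 L) else -1) * S := by
    apply hinj
    have h1 : algebraMap (𝓞 L) L (σ • S) = σ (algebraMap (𝓞 L) L S) := rfl
    rw [h1, map_mul, hS, he]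
    split_ifs
    · rw [map_one, one_mul]
    · rw [map_neg, map_one]
      ring
  have hSp : S ^ Q = S * algebraMap (𝓞 K) (𝓞 L) (d ^ m) := by
    rw [hm, pow_succ, pow_mul, hS2, map_pow, mul_comm]
  have hSw : S ∉ w.asIdeal := by
    intro h
    apply hd
    rw [hmem, ← hS2]
    exact Ideal.pow_mem_of_mem _ h 2 two_pos
  have hkey : (if e = 0 then (1 : 𝓞 K) else -1) - d ^ m ∈ v.asIdeal := by
    rw [hmem]
    have h1 := hψ S
    have h2 : σ • S - S ^ Q = S * algebraMap (𝓞 K) (𝓞 L)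
        ((if e = 0 then (1 : 𝓞 K) else -1) - d ^ m) := by
      rw [hφS, hSp, map_sub]
      split_ifs
      · rw [map_one]
        ring
      · rw [map_neg, map_one]
        ring
    rw [h2] at h1
    exact (hprime.mem_or_mem h1).resolve_left hSw
  have hE := euler hm hv hQ.symm hd
  by_cases h0 : e = 0
  · rw [if_pos h0] at hkey
    rw [h0, la_iff hodd hd, hE]
    have h2 := v.asIdeal.neg_mem hkey
    rwa [neg_sub] at h2
  · rw [if_neg h0] at hkey
    have h3 : la v (sc (d : K)) ≠ 0 := by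
      rw [Ne, la_iff hodd hd, hE]
      intro h
      have h4 := v.asIdeal.add_mem h hkey
      have h5 : d ^ m - 1 + (-1 - d ^ m) = -2 := by ring
      rw [h5] at h4
      apply h2
      have h6 := v.asIdeal.neg_mem h4
      rwa [neg_neg] at h6
    have h7 : ∀ a b : ZMod 2, a ≠ 0 → b ≠ 0 → a = b := by decide
    exact h7 _ _ h3 h0

end Leg

end H30MQ
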