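import Pool.Agent.H30.MQ.Mu
import Pool.Agent.H36.MT.As1

/-!
Project MP_78d38b_MX, block G: from the relaxed Selmer groups of all twists over `K` to the fields
between `K` and the field generated by the square roots of the elements of `D` over a Galois extension
`L` of `K` (finite or infinite).
-/

set_option autoImplicit false
set_option linter.unusedSectionVars false
open scoped Classical

open WithZero NumberField IsDedekindDomain H38RT
open H38T1 (SC sc scu rep eo la si Pri OddP tp unif)
open H76PP H36MT

namespace H30MQ

section Fields

variable {K : Type} [Field K] [NumberField K]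

/-- Monotonicity of the fields generated by a set. -/
theorem adj_mono {L F : Type} [Field L] [Field F] [Algebra K L] [Algebra K F] [Algebra L F]
    [IsScalarTower K L F] {N₁ N₂ : IntermediateField K L} (h : N₁ ≤ N₂) (S : Set F) {x : F}
    (hx : x ∈ IntermediateField.adjoin N₁ S) : x ∈ IntermediateField.adjoin N₂ S := by
  induction hx using IntermediateField.adjoin_induction with
  | mem x hx => exact IntermediateField.subset_adjoin _ _ hx
  | algebraMap x =>
    exact (IntermediateField.adjoin N₂ S).algebraMap_mem ⟨x.1, h x.2⟩
  | add x y _ _ hx hy => exact add_mem hx hy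
  | inv x _ hx => exact inv_mem hx
  | mul x y _ _ hx hy => exact mul_mem hx hy

/-- Every element of the field generated over `L` by `S` is in the field generated over a finite
Galois extension of `K` in `L`. -/
theorem adj_fin {L F : Type} [Field L] [Field F] [Algebra K L] [Algebra K F] [Algebra L F]
    [IsScalarTower K L F] [IsGalois K L] (S : Set F) {x : F}
    (hx : x ∈ IntermediateField.adjoin L S) : ∃ N : IntermediateField K L, FiniteDimensional K N ∧
      IsGalois K N ∧ x ∈ IntermediateField.adjoin N S := by
  have key : ∀ x y z : F, (∃ N : IntermediateField K L, FiniteDimensional K N ∧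
      IsGalois K N ∧ x ∈ IntermediateField.adjoin N S) →
      (∃ N : IntermediateField K L, FiniteDimensional K N ∧
      IsGalois K N ∧ y ∈ IntermediateField.adjoin N S) →
      (∀ N : IntermediateField K L, x ∈ IntermediateField.adjoin N S →
        y ∈ IntermediateField.adjoin N S → z ∈ IntermediateField.adjoin N S) →
      ∃ N : IntermediateField K L, FiniteDimensional K N ∧
        IsGalois K N ∧ z ∈ IntermediateField.adjoin N S := by
    rintro x y z ⟨N₁, f₁, g₁, h₁⟩ ⟨N₂, f₂, g₂, h₂⟩ h
    refine ⟨N₁ ⊔ N₂, inferInstance, inferInstance, h _ (adj_mono le_sup_left S h₁)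
      (adj_mono le_sup_right S h₂)⟩
  induction hx using IntermediateField.adjoin_induction with
  | mem x hx =>
    exact ⟨⊥, inferInstance, inferInstance, IntermediateField.subset_adjoin _ _ hx⟩
  | algebraMap x =>
    have hfin : FiniteDimensional K (IntermediateField.adjoin K {x}) :=
      IntermediateField.adjoin.finiteDimensional
        (Algebra.IsIntegral.isIntegral (R := K) x)
    have h1 : x ∈ IntermediateField.normalClosure K (IntermediateField.adjoin K {x}) L :=
      IntermediateField.le_normalClosure _ (IntermediateField.mem_adjoin_simple_self K x)
    have h2 : FiniteDimensional K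
      (IntermediateField.normalClosure K (IntermediateField.adjoin K {x}) L) := inferInstance
    have h3 : IsGalois K
      (IntermediateField.normalClosure K (IntermediateField.adjoin K {x}) L) := { }
    revert h1 h2 h3
    generalize IntermediateField.normalClosure K (IntermediateField.adjoin K {x}) L = N
    intro h1 h2 h3
    exact ⟨N, h2, h3, (IntermediateField.adjoin N S).algebraMap_mem ⟨x, h1⟩⟩
  | add x y _ _ hx hy => exact key x y _ hx hy fun N h1 h2 => add_mem h1 h2
  | inv x _ hx => exact key x x _ hx hx fun N h1 _ => inv_mem h1
  | mul x y _ _ hx hy => exact key x y _ hx hy fun N h1 h2 => mul_mem h1 h2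

/-- A number field generated by the square roots is generated over a number field in `L`. -/
theorem fld_fin {L F : Type} [Field L] [Field F] [CharZero F] [Algebra K L] [Algebra K F]
    [Algebra L F] [IsScalarTower K L F] [IsGalois K L] (S : Set F)
    (M : IntermediateField K F) [NumberField M]
    (hM : ∀ x ∈ M, x ∈ IntermediateField.adjoin L S) : ∃ N : IntermediateField K L,
      NumberField N ∧ IsGalois K N ∧ ∀ x ∈ M, x ∈ IntermediateField.adjoin N S := by
  obtain ⟨α, hα⟩ := Field.exists_primitive_element ℚ M
  obtain ⟨N, hN, hG, h1⟩ := adj_fin (K := K) S (hM α α.2)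
  have hc : CharZero N := inferInstance
  have hfinQ : FiniteDimensional ℚ N := Module.Finite.trans K _
  refine ⟨N, { to_charZero := hc, to_finiteDimensional := hfinQ }, hG, ?_⟩
  have h3 : IntermediateField.adjoin ℚ {α} ≤
      (((IntermediateField.adjoin N S).toSubfield.comap (algebraMap M F)).toIntermediateField
        fun q => by
        have hq : algebraMap M F (algebraMap ℚ M q) = ((q : ℚ) : F) := by simp
        show algebraMap M F (algebraMap ℚ M q) ∈ IntermediateField.adjoin N S
        rw [hq]
        exact SubfieldClass.ratCast_mem _ q) := by
    rw [IntermediateField.adjoin_le_iff]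
    intro y hy
    rw [Set.mem_singleton_iff] at hy
    subst hy
    exact h1
  rw [hα] at h3
  exact fun x hx => h3 (IntermediateField.mem_top (x := (⟨x, hx⟩ : M)))

end Fields

end H30MQ
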