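import Pool.Agent.H30.MQ.Fc
import Pool.Agent.H36.O2.Oi
import Pool.Agent.H30.ZO.Rb

/-!
Project MP_78d38b_MX, block G: admissible extensions of `K` and the fields generated over them by square
roots.
-/

set_option autoImplicit false
set_option linter.unusedSectionVars false
open scoped Classical

open WithZero NumberField IsDedekindDomain H38RT
open H38T1 (SC sc scu rep eo la si Pri OddP tp unif ka)
open H76PP H30ZO H36MT H36CY

namespace H30MQ

/-- Admissible extensions: Galois, finite layers of two-power degree, and every prime splits completely,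
or it does not divide two and the cubic has no root modulo it, or it is unramified and not in `S`. -/
structure AdmM (K L : Type) [Field K] [NumberField K] [Field L] [Algebra K L]
    (S : Finset (HeightOneSpectrum (𝓞 K))) (p : 𝓞 K × 𝓞 K) : Prop where
  gal : IsGalois K L
  deg : ∀ (N : IntermediateField K L) [NumberField N], IsGalois K N →
    ∃ r : ℕ, Module.finrank K N = 2 ^ r
  loc : ∀ v : HeightOneSpectrum (𝓞 K),
    (∃ ι : L →+* v.adicCompletion K, ∀ x : K,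
      ι (algebraMap K L x) = algebraMap K (v.adicCompletion K) x) ∨
    ((2 : 𝓞 K) ∉ v.asIdeal ∧ ∀ t : 𝓞 K, t ^ 3 + p.1 * t + p.2 ∉ v.asIdeal) ∨
    (v ∉ S ∧ ¬ RamF K L v)

section Main

variable {K : Type} [Field K] [NumberField K]

theorem val_two {v : HeightOneSpectrum (𝓞 K)} (h : (2 : 𝓞 K) ∉ v.asIdeal) :
    v.valuation K 2 = 1 := oddP_of h

theorem dsc_pos {A B : 𝓞 K} (hA : ∀ s : K →+* ℝ, 0 < s (A : K)) (s : K →+* ℝ) :
    0 < s (4 * (A : K) ^ 3 + 27 * (B : K) ^ 2) := by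
  have h1 : s (4 * (A : K) ^ 3 + 27 * (B : K) ^ 2) = 4 * s (A : K) ^ 3 + 27 * s (B : K) ^ 2 := by
    simp only [map_add, map_mul, map_pow, map_ofNat]
  rw [h1]
  have h2 := hA s
  positivity

/-- All fields in an admissible extension. -/
theorem pf_of_adm {S : Finset (HeightOneSpectrum (𝓞 K))} {p : 𝓞 K × 𝓞 K}
    (hpos : ∀ s : K →+* ℝ, 0 < s (p.1 : K)) {d : 𝓞 K} (hd : d ≠ 0)
    (hrel : ∀ P : Finset (HeightOneSpectrum (𝓞 K)), S ⊆ P → RelG K P (d ^ 2 * p.1) (d ^ 3 * p.2))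
    {L : Type} [Field L] [Algebra K L] (hL : AdmM K L S p) :
    PF K L (d ^ 2 * p.1, d ^ 3 * p.2) := by
  have hdK : (d : K) ≠ 0 := coe_ne hd
  have h0 := hrel S subset_rfl
  have e1 : ((d ^ 2 * p.1 : 𝓞 K) : K) = (d : K) ^ 2 * (p.1 : K) := by push_cast; rfl
  have e2 : ((d ^ 3 * p.2 : 𝓞 K) : K) = (d : K) ^ 3 * (p.2 : K) := by push_cast; rfl
  have hH : HasP K S (d ^ 2 * p.1, d ^ 3 * p.2) := hasP_of_rel hrel
  have hgal := hL.gal
  -- the curve itself
  have hne : 4 * (p.1 : K) ^ 3 + 27 * (p.2 : K) ^ 2 ≠ 0 := by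
    intro h
    apply h0.ne
    apply RingOfIntegers.coe_injective
    rw [map_zero]
    have h1 : (algebraMap (𝓞 K) K) (4 * (d ^ 2 * p.1) ^ 3 + 27 * (d ^ 3 * p.2) ^ 2) =
        (d : K) ^ 6 * (4 * (p.1 : K) ^ 3 + 27 * (p.2 : K) ^ 2) := by
      simp only [map_add, map_mul, map_pow, map_ofNat]
      ring
    rw [h1, h, mul_zero]
  have hirr : ∀ t : K, t ^ 3 + (p.1 : K) * t + (p.2 : K) ≠ 0 := by
    intro t ht
    apply h0.irr ((d : K) * t)
    rw [e1, e2]
    linear_combination (d : K) ^ 3 * ht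
  refine hH.main L hL.gal hL.deg ?_ ?_
  · intro v hv hns _ N _ hN
    obtain ⟨r, hr⟩ := hL.deg N hN
    rcases hL.loc v with h | ⟨h2, hn⟩ | ⟨hvS, hvr⟩
    · exact absurd h hns
    · have h3 := H36O2.descAt_noroot (N := N) hr (val_two h2) hd hne hirr hn
      change DescAt K N v ((d ^ 2 * p.1 : 𝓞 K) : K) ((d ^ 3 * p.2 : 𝓞 K) : K)
      rw [e1, e2]
      exact h3
    · rcases hv with h | h
      · exact absurd h hvS
      · exact absurd h hvr
  · intro s
    left
    change 0 < s (4 * ((d ^ 2 * p.1 : 𝓞 K) : K) ^ 3 + 27 * ((d ^ 3 * p.2 : 𝓞 K) : K) ^ 2)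
    refine dsc_pos (fun s => ?_) s
    rw [e1, map_mul, map_pow]
    have h5 : s (d : K) ≠ 0 := (map_ne_zero s).2 hdK
    have h6 := hpos s
    positivity

/-- The set of the products of the elements of `D`. -/
theorem mul2K_closure {D : Finset (𝓞 K)} (hD : ∀ d ∈ D, d ≠ 0) :
    Mul2K {x : K | ∃ d ∈ Submonoid.closure (D : Set (𝓞 K)), x = (d : K)} := by
  have hne : ∀ d ∈ Submonoid.closure (D : Set (𝓞 K)), d ≠ 0 := by
    intro d hd
    induction hd using Submonoid.closure_induction with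
    | mem d hd => exact hD d hd
    | one => exact one_ne_zero
    | mul x y _ _ hx hy => exact mul_ne_zero hx hy
  refine ⟨⟨1, one_mem _, (map_one _).symm⟩, ?_, ?_⟩
  · rintro _ ⟨d, hd, rfl⟩
    exact coe_ne (hne d hd)
  · rintro _ ⟨d, hd, rfl⟩ _ ⟨d', hd', rfl⟩
    exact ⟨((d * d' : 𝓞 K) : K), ⟨d * d', mul_mem hd hd', rfl⟩, 1, one_ne_zero, by
      rw [one_pow, mul_one]
      exact (map_mul (algebraMap (𝓞 K) K) d d').symm⟩

/-- The fields generated by square roots over an extension of `K` in which all twists are trivial. -/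
theorem fin_of_pf {D : Finset (𝓞 K)} (hD : ∀ d ∈ D, d ≠ 0) {p : 𝓞 K × 𝓞 K}
    (hne : 4 * (p.1 : K) ^ 3 + 27 * (p.2 : K) ^ 2 ≠ 0)
    {L : Type} [Field L] [Algebra K L] [IsGalois K L]
    (hL : ∀ d ∈ Submonoid.closure (D : Set (𝓞 K)), PF K L (d ^ 2 * p.1, d ^ 3 * p.2))
    {F : Type} [Field F] [Algebra K F] [Algebra L F] [IsScalarTower K L F]
    (M : IntermediateField K F) [NumberField M]
    (hM : ∀ x ∈ M, x ∈ IntermediateField.adjoin L {s : F | ∃ d ∈ D, s ^ 2 = algebraMap K F (d : K)})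
    {d : 𝓞 K} (hd : d ∈ Submonoid.closure (D : Set (𝓞 K))) :
    Finite (⟨0, 0, 0, algebraMap K M ((d ^ 2 * p.1 : 𝓞 K) : K),
      algebraMap K M ((d ^ 3 * p.2 : 𝓞 K) : K)⟩ : WeierstrassCurve M).toAffine.Point ∧
    H14T1.TwoPartFinite M (⟨0, 0, 0, algebraMap K M ((d ^ 2 * p.1 : 𝓞 K) : K),
      algebraMap K M ((d ^ 3 * p.2 : 𝓞 K) : K)⟩ : WeierstrassCurve M) := by
  have hc : CharZero F := charZero_of_injective_algebraMap (algebraMap K F).injective
  obtain ⟨N, hN, hG, hMN⟩ := fld_fin (K := K) _ M hM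
  have e1 : ∀ d : 𝓞 K, ((d ^ 2 * p.1 : 𝓞 K) : K) = (d : K) ^ 2 * (p.1 : K) := fun d => by
    push_cast; rfl
  have e2 : ∀ d : 𝓞 K, ((d ^ 3 * p.2 : 𝓞 K) : K) = (d : K) ^ 3 * (p.2 : K) := fun d => by
    push_cast; rfl
  have key := multi (K := K) (N := N) (F := F) (mul2K_closure hD) (A := (p.1 : K)) (B := (p.2 : K))
    hne (by
      rintro _ ⟨d, hd, rfl⟩
      have h1 := hL d hd N
      have h2 : tw K N (p.1 : K) (p.2 : K) (d : K) =
          ⟨0, 0, 0, algebraMap K N ((d ^ 2 * p.1 : 𝓞 K) : K),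
            algebraMap K N ((d ^ 3 * p.2 : 𝓞 K) : K)⟩ := by
        rw [e1, e2]
        rfl
      rw [h2]
      exact ⟨h1.1, h1.2.2⟩) M (by
      intro x hx
      refine IntermediateField.adjoin.mono N _ _ ?_ (hMN x hx)
      rintro s ⟨d, hd, hs⟩
      exact ⟨(d : K), ⟨d, Submonoid.subset_closure hd, rfl⟩, hs⟩)
    (d := (d : K)) ⟨d, hd, rfl⟩
  rw [e1, e2]
  exact key

end Main

end H30MQ
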