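import Pool.Agent.H30.MQ.Fh
import Pool.Agent.H30.ZO.Nh

/-!
Project MP_78d38b_MQT: the final theorem (assembly, no row).
-/

set_option autoImplicit false
set_option linter.unusedSectionVars false
open scoped Classical

open WithZero NumberField IsDedekindDomain H38RT
open H38T1 (SC sc scu rep eo la si Pri OddP tp unif ka)
open H76PP H30ZO H36MT H36CY

namespace H30MQ

section Final

variable {K : Type} [Field K] [NumberField K]

theorem ramF_fin (N : Type) [Field N] [NumberField N] [Algebra K N] :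
    {v : HeightOneSpectrum (𝓞 K) | RamF K N v}.Finite := by
  refine ((H30PN.ram_fin K N).image (dn K)).subset ?_
  rintro v ⟨M, hM, V, hV, hr⟩
  obtain ⟨W, hW⟩ := exists_above (L := N) V
  refine ⟨W, ?_, ?_⟩
  · refine ram_up (M := M) ?_
    rw [hW]
    exact hr
  · rw [← H73P2.dn_dn (k := M), hW, hV]

/-- **The main theorem.** -/
theorem main_MQ (h2 : ∀ v : HeightOneSpectrum (𝓞 K), (2 : 𝓞 K) ∈ v.asIdeal →
      Nv v = 2 ∧ (2 : 𝓞 K) ∉ v.asIdeal ^ 2)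
    (N : Type) [Field N] [NumberField N] [Algebra K N] (hgal : IsGalois K N)
    (hdeg : ∃ r : ℕ, Module.finrank K N = 2 ^ r)
    (hN : ∀ v : HeightOneSpectrum (𝓞 K), (2 : 𝓞 K) ∈ v.asIdeal → ∃ ι : N →+* v.adicCompletion K,
      ∀ x : K, ι (algebraMap K N x) = algebraMap K (v.adicCompletion K) x)
    (D : Finset (𝓞 K)) (hD : ∀ d ∈ D, d ≠ 0) :
    ∃ (S : Finset (HeightOneSpectrum (𝓞 K))) (c X₀ : ℝ), 0 < c ∧ ∀ X : ℝ, X₀ ≤ X →
      ∃ G : Finset (𝓞 K × 𝓞 K),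
        (∀ p ∈ G, p ∈ Bx K X ∧ 4 * p.1 ^ 3 + 27 * p.2 ^ 2 ≠ 0 ∧ AdmM K N S p ∧
          ∀ (L : Type) [Field L] [Algebra K L], AdmM K L S p →
            ∀ d ∈ Submonoid.closure (D : Set (𝓞 K)), PF K L (d ^ 2 * p.1, d ^ 3 * p.2)) ∧
        (∀ p ∈ G, ∀ q ∈ G, p.1 ^ 3 * q.2 ^ 2 = q.1 ^ 3 * p.2 ^ 2 → p = q) ∧
        c * ((Bx K X).ncard : ℝ) ≤ (G.card : ℝ) := by
  obtain ⟨R₀, hR₀⟩ : ∃ R₀ : Finset (HeightOneSpectrum (𝓞 K)), R₀ =
    (ramF_fin (K := K) N).toFinset.filter (fun v => (2 : 𝓞 K) ∉ v.asIdeal) := ⟨_, rfl⟩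
  obtain ⟨C, hC, hCR, hCa, hCD⟩ := exists_cfgN N h2 hN R₀ (by
    intro v hv
    rw [hR₀] at hv
    exact (Finset.mem_filter.1 hv).2) D hD
  obtain ⟨S, c, X₀, hCS, hSZ, hc, h⟩ := final_countR K hC (H30PN.split_inf K N)
  have hclne : ∀ d ∈ Submonoid.closure (D : Set (𝓞 K)), d ≠ 0 := fun d hd => (hCD d hd).ne
  refine ⟨S, c, X₀, hc, fun X hX => ?_⟩
  obtain ⟨G, h1, h3, h4⟩ := h X hX
  refine ⟨G, fun p hp => ?_, h3, h4⟩
  obtain ⟨g1, g2, g3, g4⟩ := h1 p hp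
  refine ⟨g1, ?_, ⟨hgal, ?_, ?_⟩, fun L _ _ hL d hd => pf_of_adm g2 (hclne d hd)
    (g4 d (hCD d hd)) hL⟩
  · have h5 := (g4 1 (twOk_one hC) S subset_rfl).ne
    rw [one_pow, one_pow, one_mul, one_mul] at h5
    exact h5
  · intro N' _ _
    obtain ⟨r, hr⟩ := hdeg
    have h5 := Module.finrank_mul_finrank K N' N
    rw [hr] at h5
    obtain ⟨s, -, hs⟩ := (Nat.dvd_prime_pow Nat.prime_two).1 (Dvd.intro _ h5)
    exact ⟨s, hs⟩
  · intro v
    by_cases hv2 : (2 : 𝓞 K) ∈ v.asIdeal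
    · exact Or.inl (hN v hv2)
    by_cases hvR : v ∈ C.R
    · exact Or.inr (Or.inl ⟨hv2, g3 v hvR⟩)
    by_cases hvS : v ∈ S
    · left
      rcases hSZ v hvS with h5 | h5
      · rcases Finset.mem_union.1 h5 with h6 | h6
        · exact absurd ((hC.mem2 v).1 h6) hv2
        · rcases Finset.mem_union.1 h6 with h7 | h7
          · obtain ⟨u, hu, rfl⟩ := Finset.mem_image.1 h7
            exact hCa u hu
          · exact absurd h7 hvR
      · exact h5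
    · refine Or.inr (Or.inr ⟨hvS, fun hr => hvR (hCR ?_)⟩)
      rw [hR₀]
      exact Finset.mem_filter.2 ⟨(ramF_fin (K := K) N).mem_toFinset.2 hr, hv2⟩

end Final

end H30MQ
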