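import Pool.Agent.H30.MQ.Fin

/-!
Let `K` be a number field in which `2` splits completely and let `N / K` be a Galois extension of
two-power degree in which the primes above `2` split completely.  Let `D` be any finite set of nonzero
algebraic integers of `K`.  For a positive proportion of the elliptic curves `E` over `K`, all the
quadratic twists `E_d` of `E` by the products `d` of elements of `D` have finitely many points and finite
two-primary part of the Tate-Shafarevich group over all fields between `K` and the field generated over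
`N` by the square roots of the elements of `D`, and the two-primary parts are trivial over the fields
between `K` and `N`.  The same holds, for the same curves, for all extensions of `K` which are admissible
in the sense below in place of `N`.
-/

set_option autoImplicit false
open scoped Classical

namespace Pool.Agent.Results.MP_78d38b_nt.MultiquadraticTwists

open NumberField WeierstrassCurve IsDedekindDomain Pool.Agent.H10

/-- The pairs `(A, B)` of algebraic integers of `K` of height at most `X`: the absolute values of all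
complex conjugates of `A` are at most `X²` and those of `B` are at most `X³`. -/
def Box (K : Type) [Field K] [NumberField K] (X : ℝ) : Set (𝓞 K × 𝓞 K) :=
  {p | ∀ s : K →+* ℂ, ‖s (p.1 : K)‖ ≤ X ^ 2 ∧ ‖s (p.2 : K)‖ ≤ X ^ 3}

variable {K : Type} [Field K] [NumberField K]

/-- The quadratic twist `E_d : y² = x³ + d² A x + d³ B` over the extension `M` of `K`, where
`p = (A, B)`. -/
def twist (p : 𝓞 K × 𝓞 K) (d : 𝓞 K) (M : Type) [Field M] [Algebra K M] : WeierstrassCurve M :=
  ⟨0, 0, 0, algebraMap K M ((d ^ 2 * p.1 : 𝓞 K) : K), algebraMap K M ((d ^ 3 * p.2 : 𝓞 K) : K)⟩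

/-- The group `E_d(M)` is finite of odd order and the Tate-Shafarevich group of `E_d` over `M` has no
nontrivial element of two-power order. -/
def Triv (p : 𝓞 K × 𝓞 K) (d : 𝓞 K) (M : Type) [Field M] [NumberField M] [Algebra K M] : Prop :=
  Finite (twist p d M).toAffine.Point ∧ Odd (Nat.card (twist p d M).toAffine.Point) ∧
    Sha2Trivial M (twist p d M)

/-- The two-primary part of the Tate-Shafarevich group of `W` over `M` is finite: the locally constant
cocycles which are coboundaries at all places and of which a multiple by a power of two is a coboundary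
fall into finitely many classes modulo coboundaries. -/
def TwoPartFinite (M : Type) [Field M] [NumberField M] (W : WeierstrassCurve M) : Prop :=
  ∃ S : Set ((AlgebraicClosure M ≃ₐ[M] AlgebraicClosure M) →
      (W.baseChange (AlgebraicClosure M)).toAffine.Point), S.Finite ∧
    ∀ f : (AlgebraicClosure M ≃ₐ[M] AlgebraicClosure M) →
        (W.baseChange (AlgebraicClosure M)).toAffine.Point,
      IsCocycle M W f → IsLocTriv M W f → (∃ m : ℕ, IsCobound M W (fun σ => (2 ^ m) • f σ)) →
      ∃ g ∈ S, IsCobound M W (fun σ => f σ - g σ)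

variable (K) in
/-- The primes of `K` which split completely in the Galois extension `L`. -/
def Split (L : Type) [Field L] [Algebra K L] : Set (HeightOneSpectrum (𝓞 K)) :=
  {v | ∃ i : L →+* v.adicCompletion K, ∀ x : K,
    i (algebraMap K L x) = algebraMap K (v.adicCompletion K) x}

variable (K) in
/-- The primes of `K` which are ramified in some number field between `K` and `L`. -/
def Ramified (L : Type) [Field L] [Algebra K L] : Set (HeightOneSpectrum (𝓞 K)) :=
  {v | ∃ (M : IntermediateField K L) (_ : NumberField M) (V : HeightOneSpectrum (𝓞 M)),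
    V.asIdeal.under (𝓞 K) = v.asIdeal ∧ v.asIdeal.map (algebraMap (𝓞 K) (𝓞 M)) ≤ V.asIdeal ^ 2}

/-- The extension `L / K`, finite or infinite, is admissible for the set `S` of primes and the curve of
`p = (A, B)`: it is Galois, the finite Galois extensions of `K` inside `L` have two-power degree, and
every prime `v` of `K` splits completely in `L`, or `v` does not divide `2` and `x³ + A x + B` has no root
modulo `v`, or `v` is not in `S` and is unramified in `L`. -/
structure Admissible (S : Finset (HeightOneSpectrum (𝓞 K))) (p : 𝓞 K × 𝓞 K) (L : Type) [Field L]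
    [Algebra K L] : Prop where
  gal : IsGalois K L
  deg : ∀ (M : IntermediateField K L) [NumberField M], IsGalois K M →
    ∃ r : ℕ, Module.finrank K M = 2 ^ r
  loc : ∀ v : HeightOneSpectrum (𝓞 K), v ∈ Split K L ∨
    ((2 : 𝓞 K) ∉ v.asIdeal ∧ ∀ t : 𝓞 K, t ^ 3 + p.1 * t + p.2 ∉ v.asIdeal) ∨
    (v ∉ S ∧ v ∉ Ramified K L)

/-- The curve of `p` is an elliptic curve, and for every admissible extension `L / K` and every product
`d` of elements of `D`: `Triv` holds for `E_d` over all number fields between `K` and `L`; and if `F` is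
generated over `L` by the square roots of the elements of `D`, then `E_d(M)` and the two-primary part of
the Tate-Shafarevich group of `E_d` over `M` are finite for all number fields `M` between `K` and `F`. -/
structure Good (S : Finset (HeightOneSpectrum (𝓞 K))) (D : Finset (𝓞 K)) (p : 𝓞 K × 𝓞 K) :
    Prop where
  ell : 4 * p.1 ^ 3 + 27 * p.2 ^ 2 ≠ 0
  triv : ∀ (L : Type) [Field L] [Algebra K L], Admissible S p L →
    ∀ d ∈ Submonoid.closure (D : Set (𝓞 K)), ∀ (M : IntermediateField K L) [NumberField M],
      Triv p d M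
  fin : ∀ (L F : Type) [Field L] [Field F] [Algebra K L] [Algebra K F] [Algebra L F]
    [IsScalarTower K L F], Admissible S p L →
    IntermediateField.adjoin L {s : F | ∃ d ∈ D, s ^ 2 = algebraMap K F (d : K)} = ⊤ →
    ∀ d ∈ Submonoid.closure (D : Set (𝓞 K)), ∀ (M : IntermediateField K F) [NumberField M],
      Finite (twist p d M).toAffine.Point ∧ TwoPartFinite M (twist p d M)

/-- Finite abelian groups of odd order. -/
private theorem odd_iff {G : Type} [AddCommGroup G] [Finite G] :
    Odd (Nat.card G) ↔ ∀ P : G, P + P = 0 → P = 0 := by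
  constructor
  · intro h P hP
    have h1 : addOrderOf P ∣ 2 := addOrderOf_dvd_of_nsmul_eq_zero (by rw [two_nsmul, hP])
    rcases (Nat.dvd_prime Nat.prime_two).1 h1 with h2 | h2
    · exact AddMonoid.addOrderOf_eq_one_iff.1 h2
    · exfalso
      have h3 := addOrderOf_dvd_natCard P
      rw [h2] at h3
      exact (Nat.not_even_iff_odd.2 h) (even_iff_two_dvd.2 h3)
  · intro h
    rw [← Nat.not_even_iff_odd, even_iff_two_dvd]
    intro h2
    obtain ⟨P, hP⟩ := exists_prime_addOrderOf_dvd_card' 2 h2
    have h3 : P + P = 0 := by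
      rw [← two_nsmul, ← hP]
      exact addOrderOf_nsmul_eq_zero P
    rw [h P h3, addOrderOf_zero] at hP
    norm_num at hP

private theorem triv_iff {p : 𝓞 K × 𝓞 K} {d : 𝓞 K} {M : Type} [Field M] [NumberField M]
    [Algebra K M] : Triv p d M ↔ H30ZO.Tv M (algebraMap K M ((d ^ 2 * p.1 : 𝓞 K) : K))
      (algebraMap K M ((d ^ 3 * p.2 : 𝓞 K) : K)) := by
  constructor
  · rintro ⟨h1, h2, h3⟩
    exact ⟨h1, (@odd_iff _ _ h1).1 h2, h3⟩
  · rintro ⟨h1, h2, h3⟩
    exact ⟨h1, (@odd_iff _ _ h1).2 h2, h3⟩

omit [NumberField K] in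
private theorem under_iff {L : Type} [Field L] [NumberField L] [Algebra K L]
    {v : HeightOneSpectrum (𝓞 K)} {w : HeightOneSpectrum (𝓞 L)} :
    w.asIdeal.under (𝓞 K) = v.asIdeal ↔ H76PP.dn K w = v :=
  ⟨fun h => HeightOneSpectrum.ext h, fun h => by rw [← h]; rfl⟩

private theorem ram_iff {F : Type} [Field F] [Algebra K F] {v : HeightOneSpectrum (𝓞 K)} :
    v ∈ Ramified K F ↔ H30ZO.RamF K F v := by
  refine exists_congr fun N => exists_congr fun hN => exists_congr fun V => ?_
  rw [under_iff]
  constructor
  · rintro ⟨h1, h2⟩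
    refine ⟨h1, ?_⟩
    rw [← h1] at h2
    exact h2
  · rintro ⟨h1, h2⟩
    refine ⟨h1, ?_⟩
    rw [← h1]
    exact h2

private theorem adm_iff {S : Finset (HeightOneSpectrum (𝓞 K))} {p : 𝓞 K × 𝓞 K} {L : Type} [Field L]
    [Algebra K L] : Admissible S p L ↔ H30MQ.AdmM K L S p := by
  constructor
  · rintro ⟨h1, h2, h3⟩
    exact ⟨h1, h2, fun v => (h3 v).imp_right fun h => h.imp_right fun h =>
      ⟨h.1, fun h4 => h.2 (ram_iff.2 h4)⟩⟩
  · rintro ⟨h1, h2, h3⟩
    exact ⟨h1, h2, fun v => (h3 v).imp_right fun h => h.imp_right fun h =>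
      ⟨h.1, fun h4 => h.2 (ram_iff.1 h4)⟩⟩

/-- Let `K` be a number field in which `2` splits completely, `N / K` a Galois extension of two-power
degree in which the primes above `2` split completely and `D` a finite set of nonzero algebraic integers
of `K`.  There are a finite set `S` of primes and `c > 0` such that for all large `X` at least
`c * #(Box K X)` of the curves `y² = x³ + A x + B`, `(A, B) ∈ Box K X`, with pairwise different
`j`-invariants, are such that `N` is admissible and `Good S D` holds. -/
theorem result (K : Type) [Field K] [NumberField K]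
    (h2 : ∀ v : HeightOneSpectrum (𝓞 K), (2 : 𝓞 K) ∈ v.asIdeal →
      Ideal.absNorm v.asIdeal = 2 ∧ (2 : 𝓞 K) ∉ v.asIdeal ^ 2)
    (N : Type) [Field N] [NumberField N] [Algebra K N] (hgal : IsGalois K N)
    (hdeg : ∃ r : ℕ, Module.finrank K N = 2 ^ r)
    (hN : ∀ v : HeightOneSpectrum (𝓞 K), (2 : 𝓞 K) ∈ v.asIdeal → v ∈ Split K N)
    (D : Finset (𝓞 K)) (hD : ∀ d ∈ D, d ≠ 0) :
    ∃ (S : Finset (HeightOneSpectrum (𝓞 K))) (c X₀ : ℝ), 0 < c ∧ ∀ X : ℝ, X₀ ≤ X →
      ∃ G : Finset (𝓞 K × 𝓞 K), c * ((Box K X).ncard : ℝ) ≤ (G.card : ℝ) ∧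
        (∀ p ∈ G, p ∈ Box K X ∧ Admissible S p N ∧ Good S D p) ∧
        ∀ p ∈ G, ∀ q ∈ G, p ≠ q → p.1 ^ 3 * q.2 ^ 2 ≠ q.1 ^ 3 * p.2 ^ 2 := by
  have hbox : ∀ X : ℝ, Box K X = H76PP.Bx K X := by
    intro X
    ext p
    exact ⟨fun h => ⟨fun s => (h s).1, fun s => (h s).2⟩, fun h s => ⟨h.1 s, h.2 s⟩⟩
  obtain ⟨S, c, X₀, hc, h⟩ := H30MQ.main_MQ h2 N hgal hdeg hN D hD
  refine ⟨S, c, X₀, hc, fun X hX => ?_⟩
  obtain ⟨G, h1, h3, h4⟩ := h X hX
  rw [hbox X]
  refine ⟨G, h4, fun p hp => ?_, fun p hp q hq hne h5 => hne (h3 p hp q hq h5)⟩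
  obtain ⟨g1, g2, g3, g4⟩ := h1 p hp
  refine ⟨g1, adm_iff.2 g3, g2, ?_, ?_⟩
  · intro L _ _ hL d hd M _
    exact triv_iff.2 (g4 L (adm_iff.1 hL) d hd M)
  · intro L F _ _ _ _ _ _ hL hF d hd M _
    have hgl := hL.gal
    have hne : 4 * (p.1 : K) ^ 3 + 27 * (p.2 : K) ^ 2 ≠ 0 := by
      intro h5
      apply g2
      apply RingOfIntegers.coe_injective
      rw [map_zero, ← h5]
      simp only [map_add, map_mul, map_pow, map_ofNat]
    exact H30MQ.fin_of_pf hD hne (fun d hd => g4 L (adm_iff.1 hL) d hd) M
      (fun x _ => by rw [hF]; exact IntermediateField.mem_top) hd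

end Pool.Agent.Results.MP_78d38b_nt.MultiquadraticTwists
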